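import Mathlib
import Pool.Agent.Lib.MP_6f03fc_co.Dold2

/-!
# The Borsuk-Ulam theorem for odd continuous maps, from Dold's theorem
-/

namespace Pool.Agent.Lib.MP_d9740f_co

open Pool.Agent.IndexGap Finset

/-- Sum over the vertices of `Q ℤˣ k`. -/
theorem sum_Q {k : ℕ} (y : Q ℤˣ k → ℝ) : ∑ v, y v = ∑ j, (y ⟨1, j⟩ + y ⟨-1, j⟩) := by
  rw [← sum_lw]
  refine Finset.sum_congr rfl fun j _ => ?_
  unfold lw
  rw [UnitsInt.univ, Finset.sum_pair (by decide)]

/-- The point of the cross-polytope. -/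
def xof {k : ℕ} (y : Q ℤˣ k → ℝ) : Fin (k + 1) → ℝ := fun i => y ⟨1, i⟩ - y ⟨-1, i⟩

theorem xof_abs {k : ℕ} {y : Q ℤˣ k → ℝ} (hy : y ∈ geom (orderComplex (Q ℤˣ k))) :
    ∑ i, |xof y i| = 1 := by
  rw [← hy.2.1, sum_Q]
  refine Finset.sum_congr rfl fun i _ => ?_
  unfold xof
  have h0 := hy.1 ⟨1, i⟩
  have h1 := hy.1 ⟨-1, i⟩
  by_cases h2 : y ⟨1, i⟩ = 0
  · rw [h2, zero_sub, abs_neg, abs_of_nonneg h1, zero_add]
  · by_cases h3 : y ⟨-1, i⟩ = 0
    · rw [h3, sub_zero, abs_of_nonneg h0, add_zero]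
    · exact absurd (uniq_lev hy h2 h3) (by decide)

/-- The point of the join of copies of `ℤˣ`. -/
noncomputable def wof {k : ℕ} (z : Fin (k + 1) → ℝ) : Q ℤˣ k → ℝ := fun v =>
  max (((v.grp : ℤ) : ℝ) * z v.lev) 0 / ∑ j, |z j|

theorem wof_pair (a : ℝ) : max (((1 : ℤˣ) : ℤ) * a : ℝ) 0 + max (((-1 : ℤˣ) : ℤ) * a : ℝ) 0 = |a| := by
  push_cast
  rcases le_total 0 a with h | h
  · rw [one_mul, max_eq_left h, abs_of_nonneg h, max_eq_right (by linarith), add_zero]
  · rw [one_mul, max_eq_right h, abs_of_nonpos h, max_eq_left (by linarith)]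
    ring

theorem wof_mem {k : ℕ} {z : Fin (k + 1) → ℝ} (hz : 0 < ∑ j, |z j|) :
    wof z ∈ geom (orderComplex (Q ℤˣ k)) := by
  classical
  have hnn : ∀ v, 0 ≤ wof z v := fun v => div_nonneg (le_max_right _ _) hz.le
  have hsum : ∑ v, wof z v = 1 := by
    rw [sum_Q]
    have : ∀ j, wof z ⟨1, j⟩ + wof z ⟨-1, j⟩ = |z j| / ∑ j, |z j| := by
      intro j
      unfold wof
      rw [← add_div, wof_pair]
    rw [Finset.sum_congr rfl fun j _ => this j, ← Finset.sum_div, div_self hz.ne']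
  refine ⟨hnn, hsum, Finset.univ.filter (fun v => wof z v ≠ 0), ⟨?_, ?_⟩, fun v => by simp⟩
  · by_contra h
    rw [Finset.not_nonempty_iff_eq_empty, Finset.filter_eq_empty_iff] at h
    rw [Finset.sum_eq_zero (fun v hv => not_not.mp (h hv))] at hsum
    exact zero_ne_one hsum
  · have hpos : ∀ v, wof z v ≠ 0 → 0 < ((v.grp : ℤ) : ℝ) * z v.lev := by
      intro v hv
      by_contra h
      apply hv
      unfold wof
      rw [max_eq_right (not_lt.mp h), zero_div]
    intro a ha b hb hab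
    rw [Finset.mem_coe, Finset.mem_filter] at ha hb
    have pa := hpos a ha.2
    have pb := hpos b hb.2
    rcases lt_trichotomy a.lev b.lev with h | h | h
    · exact Or.inl (Or.inr h)
    · exfalso
      apply hab
      obtain ⟨ga, la⟩ := a
      obtain ⟨gb, lb⟩ := b
      simp only at h pa pb ⊢
      subst h
      congr 1
      rcases Int.units_eq_one_or ga with rfl | rfl <;> rcases Int.units_eq_one_or gb with rfl | rfl
      · rfl
      · push_cast at pa pb
        linarith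
      · push_cast at pa pb
        linarith
      · rfl
    · exact Or.inr (Or.inr h)

theorem wof_neg {k : ℕ} (z : Fin (k + 1) → ℝ) : wof (-z) = shift (-1 : ℤˣ) (wof z) := by
  funext v
  obtain ⟨g, j⟩ := v
  change wof (-z) ⟨g, j⟩ = wof z ((-1 : ℤˣ)⁻¹ • (⟨g, j⟩ : Q ℤˣ k))
  rw [Q.smul_def]
  unfold wof
  simp only [Pi.neg_apply, abs_neg]
  congr 2
  rcases Int.units_eq_one_or g with rfl | rfl <;> simp

theorem xof_neg {k : ℕ} (y : Q ℤˣ k → ℝ) : xof (shift (-1 : ℤˣ) y) = -xof y := by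
  funext i
  change y ((-1 : ℤˣ)⁻¹ • (⟨1, i⟩ : Q ℤˣ k)) - y ((-1 : ℤˣ)⁻¹ • (⟨-1, i⟩ : Q ℤˣ k)) =
    -(y ⟨1, i⟩ - y ⟨-1, i⟩)
  rw [Q.smul_def, Q.smul_def]
  simp

/-- The Borsuk-Ulam theorem: an odd continuous map to a space of smaller dimension has a zero on the
cross-polytope sphere. -/
theorem borsuk_ulam {p q : ℕ} (hqp : q < p) (Φ : (Fin (p + 1) → ℝ) → (Fin (q + 1) → ℝ))
    (hc : Continuous Φ) (hodd : ∀ x, Φ (-x) = -Φ x) : ∃ x, ∑ i, |x i| = 1 ∧ Φ x = 0 := by
  by_contra hcon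
  push Not at hcon
  have hpos : ∀ x : Fin (p + 1) → ℝ, ∑ i, |x i| = 1 → 0 < ∑ j, |Φ x j| := by
    intro x hx
    have h1 := hcon x hx
    obtain ⟨j, hj⟩ := Function.ne_iff.mp h1
    exact Finset.sum_pos' (fun i _ => abs_nonneg _) ⟨j, Finset.mem_univ _, abs_pos.mpr hj⟩
  have : Nontrivial ℤˣ := ⟨⟨1, -1, by decide⟩⟩
  refine dold ℤˣ hqp ⟨⟨fun y => ⟨wof (Φ (xof (y : Q ℤˣ p → ℝ))), wof_mem (hpos _ (xof_abs y.2))⟩, ?_⟩, ?_⟩
  · refine Continuous.subtype_mk ?_ _
    refine continuous_pi fun v => ?_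
    unfold wof
    have hx : Continuous fun y : geom (orderComplex (Q ℤˣ p)) => Φ (xof (y : Q ℤˣ p → ℝ)) := by
      refine hc.comp ?_
      refine continuous_pi fun i => ?_
      unfold xof
      exact ((continuous_apply _).comp continuous_subtype_val).sub
        ((continuous_apply _).comp continuous_subtype_val)
    refine Continuous.div ?_ ?_ ?_
    · exact (continuous_const.mul ((continuous_apply _).comp hx)).max continuous_const
    · exact continuous_finsetSum _ fun j _ => ((continuous_apply j).comp hx).abs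
    · intro y
      exact (hpos _ (xof_abs y.2)).ne'
  · intro g x y hxy
    change wof (Φ (xof (y : Q ℤˣ p → ℝ))) = shift g (wof (Φ (xof (x : Q ℤˣ p → ℝ))))
    rw [hxy]
    rcases Int.units_eq_one_or g with rfl | rfl
    · have h1 : ∀ {k : ℕ} (w : Q ℤˣ k → ℝ), shift (1 : ℤˣ) w = w := by
        intro k w
        funext v
        change w ((1 : ℤˣ)⁻¹ • v) = w v
        rw [inv_one, one_smul]
      rw [h1, h1]
    · rw [xof_neg, hodd, wof_neg]

/-- The Borsuk-Ulam theorem with the coordinates of the target indexed by a finite type. -/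
theorem borsuk_ulam_fintype {p : ℕ} {ι : Type} [Fintype ι] [Nonempty ι] (h : Fintype.card ι ≤ p)
    (Φ : (Fin (p + 1) → ℝ) → (ι → ℝ)) (hc : Continuous Φ) (hodd : ∀ x, Φ (-x) = -Φ x) :
    ∃ x, ∑ i, |x i| = 1 ∧ Φ x = 0 := by
  obtain ⟨q, hq⟩ := Nat.exists_eq_succ_of_ne_zero (Fintype.card_ne_zero (α := ι))
  obtain ⟨e⟩ : Nonempty (Fin (q + 1) ≃ ι) := ⟨(Fintype.equivFinOfCardEq hq).symm⟩
  obtain ⟨x, hx, h0⟩ := borsuk_ulam (p := p) (q := q) (by omega) (fun x j => Φ x (e j))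
    (continuous_pi fun j => (continuous_apply _).comp hc) (fun x => by
      funext j
      rw [hodd]
      rfl)
  refine ⟨x, hx, ?_⟩
  funext i
  have := congrFun h0 (e.symm i)
  simpa using this

end Pool.Agent.Lib.MP_d9740f_co
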