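import Mathlib

/-!
# Faces of cyclic polytopes with few vertices
-/

namespace Pool.Agent.Lib.MP_d9740f_co

open Finset Polynomial

/-- The set of the vertices of a face of the cyclic polytope in dimension `r + 1`. -/
def IsF (r : ℕ) {n : ℕ} (S : Finset (Fin n)) : Prop :=
  ∃ a : Fin (r + 1) → ℝ, ∃ c : ℝ,
    (∀ i ∈ S, ∑ j : Fin (r + 1), a j * ((i : ℕ) : ℝ) ^ ((j : ℕ) + 1) = c) ∧
    (∀ i : Fin n, i ∉ S → ∑ j : Fin (r + 1), a j * ((i : ℕ) : ℝ) ^ ((j : ℕ) + 1) < c)

/-- A polynomial gives a face. -/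
theorem isF_of_poly {r n : ℕ} {S : Finset (Fin n)} (p : ℝ[X]) (hdeg : p.natDegree ≤ r + 1)
    (h0 : ∀ i ∈ S, p.eval ((i : ℕ) : ℝ) = 0) (h1 : ∀ i, i ∉ S → 0 < p.eval ((i : ℕ) : ℝ)) :
    IsF r S := by
  have key : ∀ x : ℝ, ∑ j : Fin (r + 1), -p.coeff ((j : ℕ) + 1) * x ^ ((j : ℕ) + 1) =
      p.coeff 0 - p.eval x := by
    intro x
    rw [Polynomial.eval_eq_sum_range' (Nat.lt_succ_of_le hdeg) x, Finset.sum_range_succ',
      Finset.sum_range]
    simp only [neg_mul, Finset.sum_neg_distrib, pow_zero, mul_one]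
    ring
  refine ⟨fun j => -p.coeff ((j : ℕ) + 1), p.coeff 0, fun i hi => ?_, fun i hi => ?_⟩
  · rw [key, h0 i hi, sub_zero]
  · rw [key]
    linarith [h1 i hi]

/-- Few points: every set is a face. -/
theorem isF_small {r n : ℕ} (hn : n ≤ r + 2) (S : Finset (Fin n)) : IsF r S := by
  classical
  have hinj : Set.InjOn (fun i : Fin n => ((i : ℕ) : ℝ)) (Finset.univ : Finset (Fin n)) := by
    intro i _ j _ h
    have h' : ((i : ℕ) : ℝ) = ((j : ℕ) : ℝ) := h
    exact Fin.ext (by exact_mod_cast h')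
  refine isF_of_poly (Lagrange.interpolate Finset.univ (fun i : Fin n => ((i : ℕ) : ℝ))
    (fun i => if i ∈ S then 0 else 1)) ?_ ?_ ?_
  · have h1 := Polynomial.natDegree_le_of_degree_le (Lagrange.degree_interpolate_le
      (s := Finset.univ) (v := fun i : Fin n => ((i : ℕ) : ℝ))
      (fun i => if i ∈ S then (0 : ℝ) else 1) hinj)
    rw [Finset.card_univ, Fintype.card_fin] at h1
    omega
  · intro i hi
    rw [Lagrange.eval_interpolate_at_node _ hinj (Finset.mem_univ i), if_pos hi]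
  · intro i hi
    rw [Lagrange.eval_interpolate_at_node _ hinj (Finset.mem_univ i), if_neg hi]
    exact one_pos

/-- Squares of linear factors at some of the points. -/
theorem isF_of_factor {r n : ℕ} {S T : Finset (Fin n)} (q : ℝ[X])
    (hdeg : q.natDegree + 2 * T.card ≤ r + 1) (hT : T ⊆ S)
    (h0 : ∀ i ∈ S, i ∉ T → q.eval ((i : ℕ) : ℝ) = 0)
    (h1 : ∀ i, i ∉ S → 0 < q.eval ((i : ℕ) : ℝ)) : IsF r S := by
  refine isF_of_poly (q * ∏ s ∈ T, (X - C ((s : ℕ) : ℝ)) ^ 2) ?_ ?_ ?_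
  · refine le_trans Polynomial.natDegree_mul_le (le_trans (Nat.add_le_add_left ?_ _) hdeg)
    refine le_trans (Polynomial.natDegree_prod_le _ _) ?_
    rw [mul_comm, ← smul_eq_mul]
    refine Finset.sum_le_card_nsmul _ _ _ fun s _ => ?_
    refine le_trans Polynomial.natDegree_pow_le ?_
    rw [Polynomial.natDegree_X_sub_C]
  · intro i hi
    rw [Polynomial.eval_mul, Polynomial.eval_prod]
    by_cases hiT : i ∈ T
    · rw [Finset.prod_eq_zero hiT, mul_zero]
      simp
    · rw [h0 i hi hiT, zero_mul]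
  · intro i hi
    rw [Polynomial.eval_mul, Polynomial.eval_prod]
    refine mul_pos (h1 i hi) (Finset.prod_pos fun s hs => ?_)
    rw [Polynomial.eval_pow, Polynomial.eval_sub, Polynomial.eval_X, Polynomial.eval_C]
    have hne : ((i : ℕ) : ℝ) - ((s : ℕ) : ℝ) ≠ 0 := by
      rw [sub_ne_zero]
      intro h
      have : i = s := Fin.ext (by exact_mod_cast h)
      rw [this] at hi
      exact hi (hT hs)
    positivity

/-- Neighbourliness. -/
theorem isF_nbr {r n : ℕ} {S : Finset (Fin n)} (h : 2 * S.card ≤ r + 1) : IsF r S :=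
  isF_of_factor (S := S) (T := S) 1 (by simpa using h) (Finset.Subset.refl _)
    (fun i hi hi' => absurd hi hi') (fun i _ => by simp)

/-- A set with a pair of neighbours. -/
theorem isF_adj {r n : ℕ} {S : Finset (Fin n)} {i j : Fin n} (hij : (j : ℕ) = (i : ℕ) + 1)
    (hi : i ∈ S) (hj : j ∈ S) (h : 2 * S.card ≤ r + 3) : IsF r S := by
  have hne : i ≠ j := by
    intro h
    rw [h] at hij
    omega
  have hcard : ((S.erase i).erase j).card = S.card - 2 := by
    rw [Finset.card_erase_of_mem (Finset.mem_erase.mpr ⟨hne.symm, hj⟩),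
      Finset.card_erase_of_mem hi]
    omega
  have h2 : 2 ≤ S.card := by
    rw [← Finset.card_pair hne]
    exact Finset.card_le_card (Finset.insert_subset hi (Finset.singleton_subset_iff.mpr hj))
  refine isF_of_factor (S := S) (T := (S.erase i).erase j)
    ((X - C ((i : ℕ) : ℝ)) * (X - C ((j : ℕ) : ℝ))) ?_
    ((Finset.erase_subset _ _).trans (Finset.erase_subset _ _)) ?_ ?_
  · rw [hcard]
    have : ((X - C ((i : ℕ) : ℝ)) * (X - C ((j : ℕ) : ℝ)) : ℝ[X]).natDegree ≤ 2 :=
      le_trans Polynomial.natDegree_mul_le (by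
        rw [Polynomial.natDegree_X_sub_C, Polynomial.natDegree_X_sub_C])
    omega
  · intro l hl hl'
    rw [Polynomial.eval_mul, Polynomial.eval_sub, Polynomial.eval_sub, Polynomial.eval_X,
      Polynomial.eval_C, Polynomial.eval_C]
    by_cases h3 : l = i
    · rw [h3, sub_self, zero_mul]
    · by_cases h4 : l = j
      · rw [h4, sub_self, mul_zero]
      · exact absurd (Finset.mem_erase.mpr ⟨h4, Finset.mem_erase.mpr ⟨h3, hl⟩⟩) hl'
  · intro l hl
    rw [Polynomial.eval_mul, Polynomial.eval_sub, Polynomial.eval_sub, Polynomial.eval_X,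
      Polynomial.eval_C, Polynomial.eval_C]
    have h3 : (l : ℕ) ≠ (i : ℕ) := fun h => hl (by rw [Fin.ext h]; exact hi)
    have h4 : (l : ℕ) ≠ (j : ℕ) := fun h => hl (by rw [Fin.ext h]; exact hj)
    rcases Nat.lt_or_ge (l : ℕ) (i : ℕ) with h5 | h5
    · have e1 : ((l : ℕ) : ℝ) < ((i : ℕ) : ℝ) := by exact_mod_cast h5
      have e2 : ((l : ℕ) : ℝ) < ((j : ℕ) : ℝ) := by
        rw [hij]; exact_mod_cast (by omega : (l : ℕ) < (i : ℕ) + 1)
      exact mul_pos_of_neg_of_neg (by linarith) (by linarith)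
    · have h6 : (j : ℕ) < (l : ℕ) := by omega
      have e1 : ((j : ℕ) : ℝ) < ((l : ℕ) : ℝ) := by exact_mod_cast h6
      have e2 : ((i : ℕ) : ℝ) < ((l : ℕ) : ℝ) := by
        exact_mod_cast (by omega : (i : ℕ) < (l : ℕ))
      exact mul_pos (by linarith) (by linarith)

/-- A set with the first point. -/
theorem isF_zero {r n : ℕ} {S : Finset (Fin n)} {i : Fin n} (hi0 : (i : ℕ) = 0)
    (hi : i ∈ S) (h : 2 * S.card ≤ r + 2) : IsF r S := by
  have hc : (S.erase i).card = S.card - 1 := Finset.card_erase_of_mem hi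
  have h2 : 1 ≤ S.card := Finset.card_pos.mpr ⟨i, hi⟩
  refine isF_of_factor (S := S) (T := S.erase i) X ?_ (Finset.erase_subset _ _) ?_ ?_
  · rw [hc, Polynomial.natDegree_X]
    omega
  · intro l hl hl'
    by_cases h3 : l = i
    · rw [h3, hi0]
      simp
    · exact absurd (Finset.mem_erase.mpr ⟨h3, hl⟩) hl'
  · intro l hl
    rw [Polynomial.eval_X]
    have h3 : (l : ℕ) ≠ 0 := fun h => hl (by
      have : l = i := Fin.ext (by rw [h, hi0])
      rw [this]; exact hi)
    exact_mod_cast Nat.pos_of_ne_zero h3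

/-- A set with the last point. -/
theorem isF_last {r n : ℕ} {S : Finset (Fin n)} {i : Fin n} (hi0 : (i : ℕ) + 1 = n)
    (hi : i ∈ S) (h : 2 * S.card ≤ r + 2) : IsF r S := by
  have hc : (S.erase i).card = S.card - 1 := Finset.card_erase_of_mem hi
  have h2 : 1 ≤ S.card := Finset.card_pos.mpr ⟨i, hi⟩
  refine isF_of_factor (S := S) (T := S.erase i) (C ((i : ℕ) : ℝ) - X) ?_
    (Finset.erase_subset _ _) ?_ ?_
  · rw [hc]
    have : (C ((i : ℕ) : ℝ) - X : ℝ[X]).natDegree ≤ 1 := by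
      refine le_trans (Polynomial.natDegree_sub_le _ _) ?_
      rw [Polynomial.natDegree_C, Polynomial.natDegree_X]
      simp
    omega
  · intro l hl hl'
    by_cases h3 : l = i
    · rw [h3]
      simp
    · exact absurd (Finset.mem_erase.mpr ⟨h3, hl⟩) hl'
  · intro l hl
    rw [Polynomial.eval_sub, Polynomial.eval_X, Polynomial.eval_C]
    have h3 : (l : ℕ) ≠ (i : ℕ) := fun h => hl (by rw [Fin.ext h]; exact hi)
    have h4 : (l : ℕ) < (i : ℕ) := by
      have := l.isLt
      omega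
    have h5 : ((l : ℕ) : ℝ) < ((i : ℕ) : ℝ) := by exact_mod_cast h4
    linarith

/-- A set with the first and the last point. -/
theorem isF_ends {r n : ℕ} {S : Finset (Fin n)} {i j : Fin n} (hi0 : (i : ℕ) = 0)
    (hj0 : (j : ℕ) + 1 = n) (hne : i ≠ j)
    (hi : i ∈ S) (hj : j ∈ S) (h : 2 * S.card ≤ r + 3) : IsF r S := by
  have hcard : ((S.erase i).erase j).card = S.card - 2 := by
    rw [Finset.card_erase_of_mem (Finset.mem_erase.mpr ⟨hne.symm, hj⟩),
      Finset.card_erase_of_mem hi]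
    omega
  have h2 : 2 ≤ S.card := by
    rw [← Finset.card_pair hne]
    exact Finset.card_le_card (Finset.insert_subset hi (Finset.singleton_subset_iff.mpr hj))
  refine isF_of_factor (S := S) (T := (S.erase i).erase j)
    (X * (C ((j : ℕ) : ℝ) - X)) ?_
    ((Finset.erase_subset _ _).trans (Finset.erase_subset _ _)) ?_ ?_
  · rw [hcard]
    have h3 : (C ((j : ℕ) : ℝ) - X : ℝ[X]).natDegree ≤ 1 := by
      refine le_trans (Polynomial.natDegree_sub_le _ _) ?_
      rw [Polynomial.natDegree_C, Polynomial.natDegree_X]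
      simp
    have : (X * (C ((j : ℕ) : ℝ) - X) : ℝ[X]).natDegree ≤ 2 :=
      le_trans Polynomial.natDegree_mul_le (by
        rw [Polynomial.natDegree_X]
        omega)
    omega
  · intro l hl hl'
    rw [Polynomial.eval_mul, Polynomial.eval_sub, Polynomial.eval_X, Polynomial.eval_C]
    by_cases h3 : l = i
    · rw [h3, hi0]
      simp
    · by_cases h4 : l = j
      · rw [h4, sub_self, mul_zero]
      · exact absurd (Finset.mem_erase.mpr ⟨h4, Finset.mem_erase.mpr ⟨h3, hl⟩⟩) hl'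
  · intro l hl
    rw [Polynomial.eval_mul, Polynomial.eval_sub, Polynomial.eval_X, Polynomial.eval_C]
    have h3 : (l : ℕ) ≠ 0 := fun h => hl (by
      have : l = i := Fin.ext (by rw [h, hi0])
      rw [this]; exact hi)
    have h4 : (l : ℕ) ≠ (j : ℕ) := fun h => hl (by rw [Fin.ext h]; exact hj)
    have h5 : (l : ℕ) < (j : ℕ) := by
      have := l.isLt
      omega
    have e1 : ((l : ℕ) : ℝ) < ((j : ℕ) : ℝ) := by exact_mod_cast h5
    have e2 : (0 : ℝ) < ((l : ℕ) : ℝ) := by exact_mod_cast Nat.pos_of_ne_zero h3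
    exact mul_pos e2 (by linarith)

end Pool.Agent.Lib.MP_d9740f_co
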