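import Mathlib
import Pool.Agent.Lib.MP_d9740f_co.Cyc

/-!
# The number of the sets that are not faces of a cyclic polytope with few vertices
-/

namespace Pool.Agent.Lib.MP_d9740f_co

open Finset Fin.NatCast

/-- A subset of a cycle is determined by its exceptional points. -/
theorem cyc_ind {m : ℕ} {S S' Z : Finset (Fin (m + 1))} (b : Fin (m + 1)) (hb : b ∈ S ↔ b ∈ S')
    (hZ : ∀ z ∈ Z, z ∉ S) (hZ' : ∀ z ∈ Z, z ∉ S') (h : ∀ x, x ∉ Z → (x ∈ S ↔ x - 1 ∉ S))
    (h' : ∀ x, x ∉ Z → (x ∈ S' ↔ x - 1 ∉ S')) : S = S' := by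
  have key : ∀ t : ℕ, b + ((t : ℕ) : Fin (m + 1)) ∈ S ↔ b + ((t : ℕ) : Fin (m + 1)) ∈ S' := by
    intro t
    induction t with
    | zero => simpa using hb
    | succ t ih =>
      have e : b + ((t + 1 : ℕ) : Fin (m + 1)) - 1 = b + ((t : ℕ) : Fin (m + 1)) := by
        rw [Nat.cast_succ, ← add_assoc, add_sub_cancel_right]
      by_cases hz : b + ((t + 1 : ℕ) : Fin (m + 1)) ∈ Z
      · exact iff_of_false (hZ _ hz) (hZ' _ hz)
      · rw [h _ hz, h' _ hz, e, ih]
  ext x
  have := key (x - b).val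
  rwa [Fin.cast_val_eq_self, add_sub_cancel] at this

/-- The set and its shift. -/
def US {m : ℕ} (S : Finset (Fin (m + 1))) : Finset (Fin (m + 1)) := S ∪ S.image (· + 1)

/-- The exceptional points. -/
def ZS {m : ℕ} (S : Finset (Fin (m + 1))) : Finset (Fin (m + 1)) := Finset.univ \ US S

/-- No two cyclically consecutive points. -/
def Stab {m : ℕ} (S : Finset (Fin (m + 1))) : Prop := ∀ x ∈ S, x + 1 ∉ S

theorem mem_ZS {m : ℕ} {S : Finset (Fin (m + 1))} {x : Fin (m + 1)} :
    x ∈ ZS S ↔ x ∉ S ∧ x - 1 ∉ S := by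
  unfold ZS US
  rw [Finset.mem_sdiff, Finset.mem_union, Finset.mem_image, not_or]
  constructor
  · rintro ⟨-, h1, h2⟩
    exact ⟨h1, fun h => h2 ⟨x - 1, h, sub_add_cancel x 1⟩⟩
  · rintro ⟨h1, h2⟩
    refine ⟨Finset.mem_univ _, h1, ?_⟩
    rintro ⟨y, hy, rfl⟩
    rw [add_sub_cancel_right] at h2
    exact h2 hy

theorem ZS_card {m : ℕ} {S : Finset (Fin (m + 1))} (h : Stab S) :
    (ZS S).card + 2 * S.card = m + 1 := by
  have hd : Disjoint S (S.image (· + 1)) := by
    rw [Finset.disjoint_left]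
    intro y hy hy'
    obtain ⟨x, hx, rfl⟩ := Finset.mem_image.mp hy'
    exact h x hx hy
  have h1 : (US S).card = 2 * S.card := by
    unfold US
    rw [Finset.card_union_of_disjoint hd, Finset.card_image_of_injective _ (add_left_injective 1)]
    ring
  have h2 : (ZS S).card = m + 1 - (US S).card := by
    unfold ZS
    rw [Finset.card_sdiff_of_subset (Finset.subset_univ _), Finset.card_univ, Fintype.card_fin]
  have h3 : (US S).card ≤ m + 1 := by
    refine le_trans (Finset.card_le_univ _) ?_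
    rw [Fintype.card_fin]
  omega

theorem ZS_iff {m : ℕ} {S : Finset (Fin (m + 1))} (h : Stab S) {x : Fin (m + 1)}
    (hx : x ∉ ZS S) : x ∈ S ↔ x - 1 ∉ S := by
  rw [mem_ZS] at hx
  constructor
  · intro h1 h2
    have := h _ h2
    rw [sub_add_cancel] at this
    exact this h1
  · intro h1
    by_contra h2
    exact hx ⟨h2, h1⟩

/-- Stable sets with the same exceptional points, one at least, are equal. -/
theorem eq_of_ZS {m : ℕ} {S S' : Finset (Fin (m + 1))} (h : Stab S) (h' : Stab S')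
    (he : ZS S = ZS S') (hne : (ZS S).Nonempty) : S = S' := by
  obtain ⟨b, hb⟩ := hne
  have hb' : b ∈ ZS S' := he ▸ hb
  refine cyc_ind (Z := ZS S) b (iff_of_false (mem_ZS.mp hb).1 (mem_ZS.mp hb').1)
    (fun z hz => (mem_ZS.mp hz).1) (fun z hz => (mem_ZS.mp (he ▸ hz)).1)
    (fun x hx => ZS_iff h hx) (fun x hx => ZS_iff h' (he ▸ hx))

/-- The cycle of `2 k + 3` points. -/
theorem count_cyc_odd {m k : ℕ} (hm : m + 1 = 2 * k + 3) (F : Finset (Finset (Fin (m + 1))))
    (hF : ∀ S ∈ F, S.card = k + 1 ∧ Stab S) : F.card ≤ 2 * k + 3 := by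
  have h1 : F.card ≤ ((Finset.univ : Finset (Fin (m + 1))).powersetCard 1).card := by
    refine Finset.card_le_card_of_injOn ZS ?_ ?_
    · intro S hS
      have := ZS_card (hF S hS).2
      rw [(hF S hS).1] at this
      rw [Finset.mem_coe, Finset.mem_powersetCard]
      exact ⟨Finset.subset_univ _, by omega⟩
    · intro S hS S' hS' he
      have := ZS_card (hF S hS).2
      rw [(hF S hS).1] at this
      exact eq_of_ZS (hF S hS).2 (hF S' hS').2 he (Finset.card_pos.mp (by omega))
  rw [Finset.card_powersetCard, Finset.card_univ, Fintype.card_fin, Nat.choose_one_right] at h1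
  omega

/-- The cycle of `2 k + 2` points. -/
theorem count_cyc_even {m k : ℕ} (hm : m + 1 = 2 * k + 2) (F : Finset (Finset (Fin (m + 1))))
    (hF : ∀ S ∈ F, S.card = k + 1 ∧ Stab S) : F.card ≤ 2 := by
  have h1 : F.card ≤ (Finset.univ : Finset Bool).card := by
    refine Finset.card_le_card_of_injOn (fun S => decide ((0 : Fin (m + 1)) ∈ S))
      (fun _ _ => Finset.mem_coe.mpr (Finset.mem_univ _)) ?_
    intro S hS S' hS' he
    have hz : ∀ T ∈ F, ZS T = ∅ := by
      intro T hT
      have := ZS_card (hF T hT).2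
      rw [(hF T hT).1] at this
      exact Finset.card_eq_zero.mp (by omega)
    have he' : (0 : Fin (m + 1)) ∈ S ↔ (0 : Fin (m + 1)) ∈ S' := by
      simpa using he
    refine cyc_ind (Z := ∅) 0 he' (fun z hz => absurd hz (Finset.notMem_empty z))
      (fun z hz => absurd hz (Finset.notMem_empty z))
      (fun x _ => ZS_iff (hF S hS).2 (by rw [hz S hS]; exact Finset.notMem_empty x))
      (fun x _ => ZS_iff (hF S' hS').2 (by rw [hz S' hS']; exact Finset.notMem_empty x))
  simpa using h1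

/-- Inner stable sets on `2 k + 3` points. -/
theorem count_path_odd {m k : ℕ} (hm : m + 1 = 2 * k + 3) (F : Finset (Finset (Fin (m + 1))))
    (hF : ∀ S ∈ F, S.card = k + 1 ∧ Stab S ∧ (0 : Fin (m + 1)) ∈ ZS S) : F.card ≤ 1 := by
  have hz : ∀ S ∈ F, ZS S = {0} := by
    intro S hS
    have h1 := ZS_card (hF S hS).2.1
    rw [(hF S hS).1] at h1
    obtain ⟨b, hb⟩ := Finset.card_eq_one.mp (by omega : (ZS S).card = 1)
    have h2 := (hF S hS).2.2
    rw [hb, Finset.mem_singleton] at h2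
    rw [hb, h2]
  rw [Finset.card_le_one]
  intro S hS S' hS'
  exact eq_of_ZS (hF S hS).2.1 (hF S' hS').2.1 ((hz S hS).trans (hz S' hS').symm)
    ⟨0, (hF S hS).2.2⟩

/-- The second exceptional point is odd. -/
theorem odd_of_ZS {m : ℕ} {S : Finset (Fin (m + 1))} (h : Stab S) {b : Fin (m + 1)} (hb : b ≠ 0)
    (hZ : ZS S = {0, b}) : Odd b.val := by
  have h0 : (0 : Fin (m + 1)) ∈ ZS S := by rw [hZ]; simp
  have hbZ : b ∈ ZS S := by rw [hZ]; simp
  have key : ∀ t : ℕ, t < b.val → (((t : ℕ) : Fin (m + 1)) ∈ S ↔ Odd t) := by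
    intro t
    induction t with
    | zero =>
      intro _
      have := (mem_ZS.mp h0).1
      simpa using this
    | succ t ih =>
      intro ht
      have hlt : t + 1 < m + 1 := lt_of_lt_of_le ht (Nat.le_of_lt b.isLt)
      have hv : ((t + 1 : ℕ) : Fin (m + 1)).val = t + 1 := by
        rw [Fin.val_natCast, Nat.mod_eq_of_lt hlt]
      have hnZ : ((t + 1 : ℕ) : Fin (m + 1)) ∉ ZS S := by
        rw [hZ, Finset.mem_insert, Finset.mem_singleton, not_or]
        constructor
        · intro hc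
          rw [hc] at hv
          simp at hv
        · intro hc
          rw [hc] at hv
          omega
      have e : ((t + 1 : ℕ) : Fin (m + 1)) - 1 = ((t : ℕ) : Fin (m + 1)) := by
        rw [Nat.cast_succ, add_sub_cancel_right]
      rw [ZS_iff h hnZ, e, ih (by omega), Nat.odd_add_one]
  have hb0 : b.val ≠ 0 := fun hc => hb (Fin.ext (by rw [hc]; rfl))
  have h1 := (mem_ZS.mp hbZ).2
  have e : b - 1 = ((b.val - 1 : ℕ) : Fin (m + 1)) := by
    have e2 : ((b.val - 1 + 1 : ℕ) : Fin (m + 1)) = b := by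
      rw [Nat.sub_add_cancel (Nat.pos_of_ne_zero hb0), Fin.cast_val_eq_self]
    rw [Nat.cast_succ] at e2
    rw [sub_eq_iff_eq_add]
    exact e2.symm
  rw [e, key _ (by omega)] at h1
  rcases Nat.even_or_odd b.val with h2 | h2
  · exfalso
    apply h1
    obtain ⟨u, hu⟩ := h2
    exact ⟨u - 1, by omega⟩
  · exact h2

/-- Inner stable sets on `2 k + 4` points. -/
theorem count_path_even {m k : ℕ} (hm : m + 1 = 2 * k + 4) (F : Finset (Finset (Fin (m + 1))))
    (hF : ∀ S ∈ F, S.card = k + 1 ∧ Stab S ∧ (0 : Fin (m + 1)) ∈ ZS S) : F.card ≤ k + 2 := by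
  have h1 : F.card ≤ ((Finset.range (k + 2)).image
      (fun t : ℕ => ({0, ((2 * t + 1 : ℕ) : Fin (m + 1))} : Finset (Fin (m + 1))))).card := by
    refine Finset.card_le_card_of_injOn ZS ?_ ?_
    · intro S hS
      have h2 := ZS_card (hF S hS).2.1
      rw [(hF S hS).1] at h2
      obtain ⟨x, y, hxy, hZ⟩ := Finset.card_eq_two.mp (by omega : (ZS S).card = 2)
      obtain ⟨b, hb, hZb⟩ : ∃ b, b ≠ 0 ∧ ZS S = {0, b} := by
        have h3 := (hF S hS).2.2
        rw [hZ, Finset.mem_insert, Finset.mem_singleton] at h3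
        rcases h3 with h3 | h3
        · exact ⟨y, fun hc => hxy (by rw [← h3, hc]), by rw [hZ, h3]⟩
        · exact ⟨x, fun hc => hxy (by rw [← h3, hc]), by rw [hZ, h3, Finset.pair_comm]⟩
      obtain ⟨u, hu⟩ := odd_of_ZS (hF S hS).2.1 hb hZb
      rw [Finset.mem_coe, Finset.mem_image]
      refine ⟨u, ?_, ?_⟩
      · rw [Finset.mem_range]
        have := b.isLt
        omega
      · rw [hZb, ← hu, Fin.cast_val_eq_self]
    · intro S hS S' hS' he
      exact eq_of_ZS (hF S hS).2.1 (hF S' hS').2.1 he ⟨0, (hF S hS).2.2⟩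
  refine le_trans h1 (le_trans Finset.card_image_le ?_)
  rw [Finset.card_range]

end Pool.Agent.Lib.MP_d9740f_co
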