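import Mathlib

/-!
# Odd closed sequences of disjoint sets in an up-closed family

If an up-closed family of subsets of a set of `2 k + 4` points contains an odd closed sequence of
consecutively disjoint sets, then it has at least `k + 2` members of size `k + 1`; on `2 k + 3`
points it has at least `2 k + 3` of them.
-/

namespace Pool.Agent.Lib.MP_d9740f_co

open Finset

variable {V : Type} [DecidableEq V]

/-- An odd closed sequence of consecutively disjoint members of a family. -/
def OddSeq (N : Finset V → Prop) (L : ℕ) (a : ℕ → Finset V) : Prop :=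
  Odd L ∧ (∀ i < L, N (a i)) ∧ (∀ i < L, Disjoint (a i) (a (i + 1))) ∧ a L = a 0

/-- A shortest odd closed sequence has no repetitions. -/
theorem exists_inj (N : Finset V → Prop) (L : ℕ) : ∀ a : ℕ → Finset V, OddSeq N L a →
    ∃ L' a', OddSeq N L' a' ∧ ∀ i < L', ∀ j < L', a' i = a' j → i = j := by
  induction L using Nat.strong_induction_on with
  | _ L ih =>
    intro a ha
    by_cases hinj : ∀ i < L, ∀ j < L, a i = a j → i = j
    · exact ⟨L, a, ha, hinj⟩
    push Not at hinj
    obtain ⟨hodd, hN, hd, hcl⟩ := ha
    -- an ordered pair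
    obtain ⟨i, j, hij, hj, heq⟩ : ∃ i j, i < j ∧ j < L ∧ a i = a j := by
      obtain ⟨i, hi, j, hj, h1, h2⟩ := hinj
      rcases Nat.lt_or_ge i j with h | h
      · exact ⟨i, j, h, hj, h1⟩
      · exact ⟨j, i, lt_of_le_of_ne h (Ne.symm h2), hi, h1.symm⟩
    rcases Nat.even_or_odd (j - i) with hev | hod
    · -- the outer part is odd
      refine ih (L - (j - i)) (by omega) (fun t => if t ≤ i then a t else a (t + (j - i))) ?_
      refine ⟨?_, ?_, ?_, ?_⟩
      · rcases hodd with ⟨s, hs⟩
        rcases hev with ⟨u, hu⟩
        exact ⟨s - u, by omega⟩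
      · intro t ht
        simp only
        split_ifs with h
        · exact hN t (by omega)
        · exact hN _ (by omega)
      · intro t ht
        simp only
        split_ifs with h1 h2 h2
        · exact hd t (by omega)
        · have : t = i := by omega
          subst this
          have h3 := hd j hj
          rw [heq]
          have e : t + 1 + (j - t) = j + 1 := by omega
          rw [e]
          exact h3
        · omega
        · have h3 := hd (t + (j - i)) (by omega)
          have e : t + 1 + (j - i) = t + (j - i) + 1 := by omega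
          rw [e]
          exact h3
      · simp only
        rw [if_neg (by omega), if_pos (Nat.zero_le _)]
        have e : L - (j - i) + (j - i) = L := by omega
        rw [e]
        exact hcl
    · -- the inner part is odd
      refine ih (j - i) (by omega) (fun t => a (i + t)) ⟨hod, ?_, ?_, ?_⟩
      · intro t ht
        exact hN _ (by omega)
      · intro t ht
        exact hd _ (by omega)
      · simp only
        have e : i + (j - i) = j := by omega
        rw [e, Nat.add_zero, heq]

/-- Each point lies in at most half of the sets. -/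
theorem sum_card_le {N : Finset V → Prop} {L : ℕ} {a : ℕ → Finset V} (h : OddSeq N L a)
    {s : ℕ} (hs : L = 2 * s + 1) (W : Finset V) (hW : ∀ i < L, a i ⊆ W) :
    ∑ i ∈ range L, (a i).card ≤ W.card * s := by
  obtain ⟨-, -, hd, hcl⟩ := h
  have h1 : ∀ i ∈ range L, (a i).card = ∑ x ∈ W, if x ∈ a i then 1 else 0 := by
    intro i hi
    rw [Finset.sum_ite_mem, Finset.inter_eq_right.mpr (hW i (Finset.mem_range.mp hi)),
      Finset.sum_const, smul_eq_mul, mul_one]
  rw [Finset.sum_congr rfl h1, Finset.sum_comm, ← smul_eq_mul]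
  refine Finset.sum_le_card_nsmul W _ s fun x _ => ?_
  have h2 : ∑ i ∈ range L, ((if x ∈ a i then 1 else 0) + (if x ∈ a (i + 1) then 1 else 0)) ≤ L := by
    refine le_trans (Finset.sum_le_card_nsmul (range L) _ 1 fun i hi => ?_) (by simp)
    have h0 : x ∈ a i → x ∉ a (i + 1) := fun h => Finset.disjoint_left.mp
      (hd i (Finset.mem_range.mp hi)) h
    split_ifs with h3 h4 <;> simp_all
  have h3 : ∑ i ∈ range L, (if x ∈ a (i + 1) then 1 else 0) =
      ∑ i ∈ range L, (if x ∈ a i then 1 else 0) := by
    have e1 := Finset.sum_range_succ (fun i => if x ∈ a i then 1 else 0) L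
    have e2 := Finset.sum_range_succ' (fun i => if x ∈ a i then 1 else 0) L
    rw [hcl] at e1
    omega
  rw [Finset.sum_add_distrib, h3] at h2
  omega

/-- The members of size `k + 1` above a smaller member. -/
theorem card_above (W : Finset V) (N : Finset V → Prop) [DecidablePred N]
    (hup : ∀ A B, A ⊆ B → B ⊆ W → N A → N B) {A : Finset V} (hA : A ⊆ W) (hN : N A) {k : ℕ}
    (hk : A.card ≤ k) (hkW : k ≤ W.card) :
    W.card - k ≤ ((W.powersetCard (k + 1)).filter N).card := by
  obtain ⟨B, hAB, hBW, hB⟩ := Finset.exists_subsuperset_card_eq hA hk hkW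
  have h1 : (W \ B).card = W.card - k := by
    rw [Finset.card_sdiff_of_subset hBW, hB]
  rw [← h1]
  refine Finset.card_le_card_of_injOn (fun x => insert x B) ?_ ?_
  · intro x hx
    rw [Finset.mem_coe, Finset.mem_sdiff] at hx
    rw [Finset.mem_coe, Finset.mem_filter, Finset.mem_powersetCard]
    have hsub : insert x B ⊆ W := Finset.insert_subset hx.1 hBW
    refine ⟨⟨hsub, ?_⟩, hup A _ (hAB.trans (Finset.subset_insert _ _)) hsub hN⟩
    rw [Finset.card_insert_of_notMem hx.2, hB]
  · intro x hx y hy hxy
    rw [Finset.mem_coe, Finset.mem_sdiff] at hx hy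
    have h2 : x ∈ insert y B := by
      rw [← show insert x B = insert y B from hxy]
      exact Finset.mem_insert_self _ _
    rcases Finset.mem_insert.mp h2 with h | h
    · exact h
    · exact absurd h hx.2

/-- The even case. -/
theorem even_case (W : Finset V) (k : ℕ) (hW : W.card = 2 * k + 4) (N : Finset V → Prop)
    [DecidablePred N] (hup : ∀ A B, A ⊆ B → B ⊆ W → N A → N B)
    (hex : ∃ L a, OddSeq (fun A => N A ∧ A ⊆ W) L a) :
    k + 2 ≤ ((W.powersetCard (k + 1)).filter N).card := by
  by_cases hsmall : ∃ A ⊆ W, N A ∧ A.card ≤ k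
  · obtain ⟨A, hA, hN, hk⟩ := hsmall
    have := card_above W N hup hA hN hk (by omega)
    omega
  push Not at hsmall
  obtain ⟨L0, a0, h0⟩ := hex
  obtain ⟨L, a, h, hinj⟩ := exists_inj _ _ _ h0
  obtain ⟨s, hs⟩ := h.1
  have hsum := sum_card_le h hs W (fun i hi => (h.2.1 i hi).2)
  have hq : ((range L).filter (fun i => (a i).card = k + 1)).card ≤
      ((W.powersetCard (k + 1)).filter N).card := by
    refine Finset.card_le_card_of_injOn a ?_ ?_
    · intro i hi
      rw [Finset.mem_coe, Finset.mem_filter, Finset.mem_range] at hi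
      rw [Finset.mem_coe, Finset.mem_filter, Finset.mem_powersetCard]
      exact ⟨⟨(h.2.1 i hi.1).2, hi.2⟩, (h.2.1 i hi.1).1⟩
    · intro i hi j hj hij
      rw [Finset.mem_coe, Finset.mem_filter, Finset.mem_range] at hi hj
      exact hinj i hi.1 j hj.1 hij
  refine le_trans ?_ hq
  have h2 : (k + 2) * L ≤ ∑ i ∈ range L, (a i).card +
      ((range L).filter (fun i => (a i).card = k + 1)).card := by
    rw [Finset.card_filter, ← Finset.sum_add_distrib]
    have : (k + 2) * L = (range L).card • (k + 2) := by
      rw [Finset.card_range, smul_eq_mul, mul_comm]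
    rw [this]
    refine Finset.card_nsmul_le_sum _ _ _ fun i hi => ?_
    have h3 := h.2.1 i (Finset.mem_range.mp hi)
    have h4 := hsmall _ h3.2 h3.1
    split_ifs with h5 <;> omega
  rw [hW] at hsum
  have e1 : (k + 2) * L = (2 * k + 4) * s + (k + 2) := by
    rw [hs]
    ring
  omega

/-- The odd case. -/
theorem odd_case (W : Finset V) (k : ℕ) (hk : 1 ≤ k) (hW : W.card = 2 * k + 3)
    (N : Finset V → Prop)
    [DecidablePred N] (hup : ∀ A B, A ⊆ B → B ⊆ W → N A → N B)
    (hex : ∃ L a, OddSeq (fun A => N A ∧ A ⊆ W) L a) :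
    2 * k + 3 ≤ ((W.powersetCard (k + 1)).filter N).card := by
  obtain ⟨L, a, h⟩ := hex
  -- the link of a point
  have hlink : ∀ x ∈ W, k + 1 ≤
      (((W.powersetCard (k + 1)).filter N).filter (fun S => x ∈ S)).card := by
    intro x hx
    have h1 := even_case (W.erase x) (k - 1) (by rw [Finset.card_erase_of_mem hx]; omega)
      (fun A => N (insert x A))
      (fun A B hAB hB hA => hup _ _ (Finset.insert_subset_insert x hAB)
        (Finset.insert_subset hx (hB.trans (Finset.erase_subset _ _))) hA)
      ⟨L, fun i => (a i).erase x, h.1, fun i hi => ⟨hup (a i) _ (by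
          intro y hy
          by_cases hxy : y = x
          · rw [hxy]; exact Finset.mem_insert_self _ _
          · exact Finset.mem_insert_of_mem (Finset.mem_erase.mpr ⟨hxy, hy⟩))
        (Finset.insert_subset hx ((Finset.erase_subset _ _).trans (h.2.1 i hi).2)) (h.2.1 i hi).1,
        Finset.erase_subset_erase x (h.2.1 i hi).2⟩,
        fun i hi => Finset.disjoint_of_subset_left (Finset.erase_subset _ _)
          (Finset.disjoint_of_subset_right (Finset.erase_subset _ _) (h.2.2.1 i hi)),
        by simp only [h.2.2.2]⟩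
    have e : k - 1 + 2 = k + 1 := by omega
    have e' : k - 1 + 1 = k := by omega
    rw [e, e'] at h1
    refine le_trans h1 ?_
    refine Finset.card_le_card_of_injOn (fun A => insert x A) ?_ ?_
    · intro A hA
      rw [Finset.mem_coe, Finset.mem_filter, Finset.mem_powersetCard] at hA
      rw [Finset.mem_coe, Finset.mem_filter, Finset.mem_filter, Finset.mem_powersetCard]
      have hxA : x ∉ A := fun hc => Finset.notMem_erase x W (hA.1.1 hc)
      refine ⟨⟨⟨Finset.insert_subset hx (hA.1.1.trans (Finset.erase_subset _ _)), ?_⟩, hA.2⟩,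
        Finset.mem_insert_self _ _⟩
      rw [Finset.card_insert_of_notMem hxA, hA.1.2]
    · intro A hA B hB hAB
      rw [Finset.mem_coe, Finset.mem_filter, Finset.mem_powersetCard] at hA hB
      have hxA : x ∉ A := fun hc => Finset.notMem_erase x W (hA.1.1 hc)
      have hxB : x ∉ B := fun hc => Finset.notMem_erase x W (hB.1.1 hc)
      have h2 := congrArg (fun S => S.erase x) (show insert x A = insert x B from hAB)
      simpa [Finset.erase_insert hxA, Finset.erase_insert hxB] using h2
  -- double counting
  have h1 : W.card * (k + 1) ≤ ∑ x ∈ W,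
      (((W.powersetCard (k + 1)).filter N).filter (fun S => x ∈ S)).card := by
    rw [← smul_eq_mul]
    exact Finset.card_nsmul_le_sum _ _ _ hlink
  have h2 : ∑ x ∈ W, (((W.powersetCard (k + 1)).filter N).filter (fun S => x ∈ S)).card =
      ∑ S ∈ (W.powersetCard (k + 1)).filter N, (W.filter (fun x => x ∈ S)).card := by
    rw [Finset.sum_congr rfl (fun x _ => Finset.card_filter _ _), Finset.sum_comm]
    exact Finset.sum_congr rfl (fun S _ => (Finset.card_filter _ _).symm)
  have h3 : ∑ S ∈ (W.powersetCard (k + 1)).filter N, (W.filter (fun x => x ∈ S)).card =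
      ((W.powersetCard (k + 1)).filter N).card * (k + 1) := by
    rw [← smul_eq_mul, ← Finset.sum_const]
    refine Finset.sum_congr rfl fun S hS => ?_
    rw [Finset.mem_filter, Finset.mem_powersetCard] at hS
    rw [Finset.filter_mem_eq_inter, Finset.inter_eq_right.mpr hS.1.1, hS.1.2]
  rw [h2, h3, hW] at h1
  exact Nat.le_of_mul_le_mul_right h1 (Nat.succ_pos k)

/-- Two disjoint members on `2 k + 3` points. -/
theorem two_odd (W : Finset V) (k : ℕ) (hW : W.card = 2 * k + 3) (N : Finset V → Prop)
    [DecidablePred N] (hup : ∀ A B, A ⊆ B → B ⊆ W → N A → N B) {A B : Finset V}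
    (hA : A ⊆ W) (hB : B ⊆ W) (hNA : N A) (hNB : N B) (hAB : Disjoint A B) :
    1 ≤ ((W.powersetCard (k + 1)).filter N).card := by
  have h1 : A.card + B.card ≤ W.card := by
    rw [← Finset.card_union_of_disjoint hAB]
    exact Finset.card_le_card (Finset.union_subset hA hB)
  have key : ∀ C : Finset V, C ⊆ W → N C → C.card ≤ k + 1 →
      1 ≤ ((W.powersetCard (k + 1)).filter N).card := by
    intro C hC hNC hc
    obtain ⟨D, hCD, hDW, hD⟩ := Finset.exists_subsuperset_card_eq hC hc (by omega)
    refine Finset.card_pos.mpr ⟨D, ?_⟩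
    rw [Finset.mem_filter, Finset.mem_powersetCard]
    exact ⟨⟨hDW, hD⟩, hup C D hCD hDW hNC⟩
  rcases Nat.lt_or_ge (k + 1) A.card with h | h
  · exact key B hB hNB (by omega)
  · exact key A hA hNA h

/-- Two disjoint members on `2 k + 2` points. -/
theorem two_even (W : Finset V) (k : ℕ) (hW : W.card = 2 * k + 2) (N : Finset V → Prop)
    [DecidablePred N] (hup : ∀ A B, A ⊆ B → B ⊆ W → N A → N B) {A B : Finset V}
    (hA : A ⊆ W) (hB : B ⊆ W) (hNA : N A) (hNB : N B) (hAB : Disjoint A B) :
    2 ≤ ((W.powersetCard (k + 1)).filter N).card := by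
  have h1 : A.card + B.card ≤ W.card := by
    rw [← Finset.card_union_of_disjoint hAB]
    exact Finset.card_le_card (Finset.union_subset hA hB)
  rcases Nat.lt_or_ge k A.card with h | h
  · rcases Nat.lt_or_ge k B.card with h' | h'
    · have hne : A ≠ B := by
        rintro rfl
        rw [Finset.disjoint_self_iff_empty] at hAB
        rw [hAB, Finset.card_empty] at h
        omega
      rw [← Finset.card_pair hne]
      refine Finset.card_le_card ?_
      intro C hC
      rw [Finset.mem_filter, Finset.mem_powersetCard]
      rcases Finset.mem_insert.mp hC with rfl | hC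
      · exact ⟨⟨hA, by omega⟩, hNA⟩
      · rw [Finset.mem_singleton] at hC
        subst hC
        exact ⟨⟨hB, by omega⟩, hNB⟩
    · have := card_above W N hup hB hNB h' (by omega)
      omega
  · have := card_above W N hup hA hNA h (by omega)
    omega

end Pool.Agent.Lib.MP_d9740f_co
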