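import Mathlib
import Pool.Agent.Lib.MP_d9740f_co.BU

/-!
# Colourings of the non-faces of an embeddable complex

If a complex on `n` points has an almost embedding into the space of dimension `r` (a continuous map
of its realization for which points with disjoint supports have different images), its non-faces have
no colouring with `m` colours, `m + r + 2 ≤ n`, in which disjoint non-faces get different colours.
-/

namespace Pool.Agent.Lib.MP_d9740f_co

open Finset

/-- The realization of a complex. -/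
def Rz {n : ℕ} (K : Finset (Finset (Fin n))) : Set (Fin n → ℝ) :=
  {x : Fin n → ℝ | (∀ i, 0 ≤ x i) ∧ ∑ i, x i = 1 ∧ ∃ σ ∈ K, ∀ i, i ∉ σ → x i = 0}

/-- Points with disjoint supports have different images. -/
def Alm {n r : ℕ} (K : Finset (Finset (Fin n))) (f : (Fin n → ℝ) → EuclideanSpace ℝ (Fin r)) :
    Prop := ∀ x ∈ Rz K, ∀ y ∈ Rz K, (∀ i, x i = 0 ∨ y i = 0) → f x ≠ f y

/-- The non-faces. -/
def NF {n : ℕ} (K : Finset (Finset (Fin n))) (A : Finset (Fin n)) : Prop := A.Nonempty ∧ A ∉ K

instance {n : ℕ} (K : Finset (Finset (Fin n))) (A : Finset (Fin n)) : Decidable (NF K A) :=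
  inferInstanceAs (Decidable (_ ∧ _))

theorem isClosed_Rz {n : ℕ} (K : Finset (Finset (Fin n))) : IsClosed (Rz K) := by
  have h : Rz K = {x : Fin n → ℝ | ∀ i, 0 ≤ x i} ∩ ({x | ∑ i, x i = 1} ∩
      ⋃ σ ∈ K, {x : Fin n → ℝ | ∀ i, i ∉ σ → x i = 0}) := by
    ext x
    simp [Rz]
  rw [h]
  refine IsClosed.inter ?_ (IsClosed.inter ?_ ?_)
  · simp only [Set.ofPred_forall]
    exact isClosed_iInter fun i => isClosed_le continuous_const (continuous_apply i)
  · exact isClosed_eq (continuous_finsetSum _ fun i _ => continuous_apply i) continuous_const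
  · refine Set.Finite.isClosed_biUnion K.finite_toSet fun σ _ => ?_
    simp only [Set.ofPred_forall]
    exact isClosed_iInter fun i => isClosed_iInter fun _ =>
      isClosed_eq (continuous_apply i) continuous_const

/-- The positive part. -/
noncomputable def pp {n : ℕ} (x : Fin n → ℝ) : Fin n → ℝ := fun i => max (x i) 0

theorem pp_nonneg {n : ℕ} (x : Fin n → ℝ) (i : Fin n) : 0 ≤ pp x i := le_max_right _ _

theorem pp_add {n : ℕ} (x : Fin n → ℝ) (i : Fin n) : pp x i + pp (-x) i = |x i| := by
  unfold pp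
  rw [Pi.neg_apply]
  rcases le_total 0 (x i) with h | h
  · rw [max_eq_left h, abs_of_nonneg h, max_eq_right (by linarith), add_zero]
  · rw [max_eq_right h, abs_of_nonpos h, max_eq_left (by linarith), zero_add]

theorem pp_sub {n : ℕ} (x : Fin n → ℝ) (i : Fin n) : pp x i - pp (-x) i = x i := by
  unfold pp
  rw [Pi.neg_apply]
  rcases le_total 0 (x i) with h | h
  · rw [max_eq_left h, max_eq_right (by linarith), sub_zero]
  · rw [max_eq_right h, max_eq_left (by linarith)]
    ring

theorem pp_disj {n : ℕ} (x : Fin n → ℝ) (i : Fin n) (h : 0 < pp x i) : pp (-x) i = 0 := by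
  unfold pp at h ⊢
  rw [Pi.neg_apply]
  apply max_eq_right
  by_contra h2
  rw [max_eq_right (by linarith)] at h
  exact lt_irrefl _ h

theorem continuous_pp {n : ℕ} : Continuous (pp : (Fin n → ℝ) → (Fin n → ℝ)) :=
  continuous_pi fun i => (continuous_apply i).max continuous_const

/-- The test polynomial of a colour. -/
noncomputable def PJ {n m : ℕ} (K : Finset (Finset (Fin n))) (c : Finset (Fin n) → Fin m)
    (j : Fin m) (y : Fin n → ℝ) : ℝ :=
  ∑ A ∈ Finset.univ.filter (fun A => NF K A ∧ c A = j), ∏ i ∈ A, y i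

theorem continuous_PJ {n m : ℕ} (K : Finset (Finset (Fin n))) (c : Finset (Fin n) → Fin m)
    (j : Fin m) : Continuous (PJ K c j) :=
  continuous_finsetSum _ fun _ _ => continuous_finsetProd _ fun i _ => continuous_apply i

theorem PJ_pos {n m : ℕ} {K : Finset (Finset (Fin n))} {c : Finset (Fin n) → Fin m}
    {y : Fin n → ℝ} (hy : ∀ i, 0 ≤ y i) {A : Finset (Fin n)} (hA : NF K A)
    (hpos : ∀ i ∈ A, 0 < y i) : 0 < PJ K c (c A) y := by
  refine Finset.sum_pos' (fun B _ => Finset.prod_nonneg fun i _ => hy i) ⟨A, ?_, ?_⟩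
  · simp [hA]
  · exact Finset.prod_pos hpos

theorem of_PJ_pos {n m : ℕ} {K : Finset (Finset (Fin n))} {c : Finset (Fin n) → Fin m}
    {y : Fin n → ℝ} (hy : ∀ i, 0 ≤ y i) {j : Fin m} (h : 0 < PJ K c j y) :
    ∃ B, NF K B ∧ c B = j ∧ ∀ i ∈ B, 0 < y i := by
  by_contra hcon
  push Not at hcon
  refine h.ne' (Finset.sum_eq_zero fun B hB => ?_)
  simp only [Finset.mem_filter, Finset.mem_univ, true_and] at hB
  obtain ⟨i, hi, h0⟩ := hcon B hB.1 hB.2
  exact Finset.prod_eq_zero hi (le_antisymm h0 (hy i))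

/-- One side: the support of a vector at which all tests agree is a face. -/
theorem supp_face {n m : ℕ} {K : Finset (Finset (Fin n))} {c : Finset (Fin n) → Fin m}
    (hc : ∀ A B, NF K A → NF K B → Disjoint A B → c A ≠ c B) {x : Fin n → ℝ}
    (h : ∀ j, PJ K c j (pp x) = PJ K c j (pp (-x))) (hs : ∑ i, pp x i = 1 / 2) :
    (fun i => 2 * pp x i) ∈ Rz K := by
  refine ⟨fun i => mul_nonneg (by norm_num) (pp_nonneg x i), ?_, 
    Finset.univ.filter (fun i => 0 < pp x i), ?_, ?_⟩
  · rw [← Finset.mul_sum, hs]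
    norm_num
  · by_contra hA
    have hne : (Finset.univ.filter (fun i => 0 < pp x i)).Nonempty := by
      by_contra hemp
      rw [Finset.not_nonempty_iff_eq_empty, Finset.filter_eq_empty_iff] at hemp
      have : ∑ i, pp x i = 0 := Finset.sum_eq_zero fun i hi =>
        le_antisymm (not_lt.mp (hemp hi)) (pp_nonneg x i)
      rw [this] at hs
      norm_num at hs
    have h1 : 0 < PJ K c (c (Finset.univ.filter (fun i => 0 < pp x i))) (pp x) :=
      PJ_pos (pp_nonneg x) ⟨hne, hA⟩ (fun i hi => (Finset.mem_filter.mp hi).2)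
    rw [h] at h1
    obtain ⟨B, hB, hcB, hpos⟩ := of_PJ_pos (pp_nonneg (-x)) h1
    refine hc _ B ⟨hne, hA⟩ hB ?_ hcB.symm
    rw [Finset.disjoint_left]
    intro i hi hiB
    have h2 := pp_disj x i (Finset.mem_filter.mp hi).2
    have h3 := hpos i hiB
    rw [h2] at h3
    exact lt_irrefl _ h3
  · intro i hi
    simp only [Finset.mem_filter, Finset.mem_univ, true_and, not_lt] at hi
    show 2 * pp x i = 0
    rw [le_antisymm hi (pp_nonneg x i), mul_zero]

/-- **Colourings of the non-faces.** -/
theorem no_coloring {n r m : ℕ} (hn : m + r + 2 ≤ n) (K : Finset (Finset (Fin n)))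
    (f : (Fin n → ℝ) → EuclideanSpace ℝ (Fin r)) (hf : ContinuousOn f (Rz K))
    (hi : Alm K f) (c : Finset (Fin n) → Fin m)
    (hc : ∀ A B, NF K A → NF K B → Disjoint A B → c A ≠ c B) : False := by
  obtain ⟨p, rfl⟩ : ∃ p, n = p + 1 := ⟨n - 1, by omega⟩
  -- the extension
  have hf' : ContinuousOn (fun x => (f x).ofLp) (Rz K) :=
    (PiLp.continuous_ofLp 2 _).comp_continuousOn hf
  obtain ⟨g, hg⟩ := ContinuousMap.exists_restrict_eq (isClosed_Rz K)
    (⟨(Rz K).domRestrict (fun x => (f x).ofLp), hf'.domRestrict⟩ : C(Rz K, Fin r → ℝ))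
  have hg' : ∀ x ∈ Rz K, g x = (f x).ofLp := fun x hx => by
    exact congrArg (fun h => h ⟨x, hx⟩) hg
  obtain ⟨x, hx, h0⟩ := borsuk_ulam_fintype (p := p) (ι := Fin m ⊕ (Unit ⊕ Fin r))
    (by simp; omega)
    (fun x => Sum.elim (fun j => PJ K c j (pp x) - PJ K c j (pp (-x)))
      (Sum.elim (fun _ => ∑ i, x i)
        (fun l => g (fun i => 2 * pp x i) l - g (fun i => 2 * pp (-x) i) l)))
    (by
      refine continuous_pi fun j => ?_
      rcases j with j | j | l
      · exact ((continuous_PJ K c j).comp continuous_pp).sub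
          ((continuous_PJ K c j).comp (continuous_pp.comp continuous_neg))
      · show Continuous fun x : Fin (p + 1) → ℝ => ∑ i, x i
        exact continuous_finsetSum _ fun i _ => continuous_apply i
      · have h1 : Continuous fun x : Fin (p + 1) → ℝ => g (fun i => 2 * pp x i) :=
          g.continuous.comp (continuous_pi fun i =>
            continuous_const.mul ((continuous_apply i).comp continuous_pp))
        exact ((continuous_apply l).comp h1).sub
          ((continuous_apply l).comp (h1.comp continuous_neg)))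
    (by
      intro x
      funext j
      rcases j with j | j | l
      · simp
      · simp
      · simp)
  have hA : ∀ j, PJ K c j (pp x) = PJ K c j (pp (-x)) := fun j => by
    have := congrFun h0 (Sum.inl j)
    exact sub_eq_zero.mp this
  have hB : ∑ i, x i = 0 := congrFun h0 (Sum.inr (Sum.inl ()))
  have hC : g (fun i => 2 * pp x i) = g (fun i => 2 * pp (-x) i) := by
    funext l
    have := congrFun h0 (Sum.inr (Sum.inr l))
    exact sub_eq_zero.mp this
  have hs1 : ∑ i, pp x i + ∑ i, pp (-x) i = 1 := by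
    rw [← Finset.sum_add_distrib, ← hx]
    exact Finset.sum_congr rfl fun i _ => pp_add x i
  have hs2 : ∑ i, pp x i - ∑ i, pp (-x) i = 0 := by
    rw [← Finset.sum_sub_distrib, ← hB]
    exact Finset.sum_congr rfl fun i _ => pp_sub x i
  have m1 : (fun i => 2 * pp x i) ∈ Rz K := supp_face hc hA (by linarith)
  have m2 : (fun i => 2 * pp (-x) i) ∈ Rz K :=
    supp_face hc (fun j => by rw [neg_neg]; exact (hA j).symm) (by linarith)
  rw [hg' _ m1, hg' _ m2] at hC
  refine hi _ m1 _ m2 (fun i => ?_) (WithLp.ofLp_injective 2 hC)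
  rcases (pp_nonneg x i).lt_or_eq with h3 | h3
  · right
    show 2 * pp (-x) i = 0
    rw [pp_disj x i h3, mul_zero]
  · left
    show 2 * pp x i = 0
    rw [← h3, mul_zero]

/-- An injective map is an almost embedding. -/
theorem alm_of_injOn {n r : ℕ} {K : Finset (Finset (Fin n))}
    {f : (Fin n → ℝ) → EuclideanSpace ℝ (Fin r)} (hi : Set.InjOn f (Rz K)) : Alm K f := by
  intro x hx y hy hxy he
  have h := hi hx hy he
  subst h
  have : ∑ i, x i = 0 := Finset.sum_eq_zero fun i _ => (hxy i).elim id id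
  rw [hx.2.1] at this
  exact one_ne_zero this

end Pool.Agent.Lib.MP_d9740f_co
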