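import Mathlib
import Pool.Agent.Lib.MP_d9740f_co.Sark
import Pool.Agent.Lib.MP_d9740f_co.Odd
import Pool.Agent.Lib.MP_d9740f_co.Cnt

/-!
# The face numbers of embeddable complexes with few vertices
-/

namespace Pool.Agent.Lib.MP_d9740f_co

open Finset

/-- The Kneser graph of the non-faces. -/
def KG {n : ℕ} (K : Finset (Finset (Fin n))) : SimpleGraph (Finset (Fin n)) where
  Adj A B := NF K A ∧ NF K B ∧ Disjoint A B
  symm := ⟨fun _ _ h => ⟨h.2.1, h.1, h.2.2.symm⟩⟩
  loopless := ⟨fun A h => by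
    have h1 := h.2.2
    rw [Finset.disjoint_self_iff_empty] at h1
    exact h.1.1.ne_empty h1⟩

/-- An odd closed sequence of non-faces. -/
theorem exists_oddSeq {n r : ℕ} (hn : r + 4 ≤ n) (K : Finset (Finset (Fin n)))
    (f : (Fin n → ℝ) → EuclideanSpace ℝ (Fin r)) (hf : ContinuousOn f (Rz K))
    (hi : Alm K f) : ∃ L a, OddSeq (NF K) L a := by
  have h : ¬ (KG K).Colorable 2 := by
    rintro ⟨C⟩
    exact no_coloring (m := 2) (by omega) K f hf hi C
      (fun A B hA hB hAB => C.valid ⟨hA, hB, hAB⟩)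
  rw [SimpleGraph.two_colorable_iff_forall_loop_even] at h
  push Not at h
  obtain ⟨u, w, hw⟩ := h
  refine ⟨w.length, w.getVert, ?_, ?_, ?_, ?_⟩
  · exact Nat.not_even_iff_odd.mp hw
  · intro i hi
    exact (w.adj_getVert_succ hi).1
  · intro i hi
    exact (w.adj_getVert_succ hi).2.2
  · rw [SimpleGraph.Walk.getVert_length, SimpleGraph.Walk.getVert_zero]

/-- Two disjoint non-faces. -/
theorem exists_pair {n r : ℕ} (hn : r + 3 ≤ n) (K : Finset (Finset (Fin n)))
    (f : (Fin n → ℝ) → EuclideanSpace ℝ (Fin r)) (hf : ContinuousOn f (Rz K))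
    (hi : Alm K f) : ∃ A B, NF K A ∧ NF K B ∧ Disjoint A B := by
  by_contra hcon
  push Not at hcon
  exact no_coloring (m := 1) (by omega) K f hf hi (fun _ => 0)
    (fun A B hA hB hAB => absurd hAB (hcon A B hA hB))

/-- The sets that are not faces of the cyclic polytope have no neighbours. -/
theorem stab_of {m r : ℕ} {S : Finset (Fin (m + 1))} (hS : ¬ IsF r S)
    (hc : 2 * S.card ≤ r + 3) (hm : 1 ≤ m) : Stab S := by
  intro x hx hx1
  by_cases hlast : x.val = m
  · have hxl : x = Fin.last m := Fin.ext hlast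
    rw [hxl, Fin.last_add_one] at hx1
    refine hS (isF_ends (i := 0) (j := x) rfl (by omega) ?_ hx1 hx hc)
    intro h
    rw [← h] at hlast
    simp at hlast
    omega
  · have h1 : (x + 1).val = x.val + 1 := Fin.val_add_one_of_lt' (by
      have := x.isLt
      omega)
    exact hS (isF_adj h1 hx hx1 hc)

/-- In even dimension they do not meet the ends. -/
theorem zero_ZS {m r : ℕ} {S : Finset (Fin (m + 1))} (hS : ¬ IsF r S)
    (hc : 2 * S.card ≤ r + 2) : (0 : Fin (m + 1)) ∈ ZS S := by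
  rw [mem_ZS]
  refine ⟨fun h => hS (isF_zero (i := 0) rfl h hc), fun h => ?_⟩
  have h1 : (0 - 1 : Fin (m + 1)) = Fin.last m := by
    rw [sub_eq_iff_eq_add, Fin.last_add_one]
  rw [h1] at h
  exact hS (isF_last (i := Fin.last m) rfl h hc)

/-- The comparison of the numbers of the missing sets. -/
theorem missing_le {r n : ℕ} (hn4 : n ≤ r + 4) (K : Finset (Finset (Fin n)))
    (hK : ∀ σ ∈ K, ∀ τ : Finset (Fin n), τ ⊆ σ → τ.Nonempty → τ ∈ K)
    (f : (Fin n → ℝ) → EuclideanSpace ℝ (Fin r)) (hf : ContinuousOn f (Rz K))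
    (hi : Alm K f) (k : ℕ) (hk : 1 ≤ k) (hkr : 2 * k ≤ r + 1)
    (F : Finset (Finset (Fin n))) (hF : ∀ S ∈ F, S.card = k + 1 ∧ ¬ IsF r S) :
    F.card ≤ (((Finset.univ : Finset (Fin n)).powersetCard (k + 1)).filter (NF K)).card := by
  have hup : ∀ A B : Finset (Fin n), A ⊆ B → B ⊆ Finset.univ → NF K A → NF K B :=
    fun A B hAB _ hA => ⟨hA.1.mono hAB, fun hB => hA.2 (hK B hB A hAB hA.1)⟩
  -- trivial cases
  by_cases htriv : 2 * k + 2 ≤ r + 1 ∨ n ≤ r + 2
  · have : F = ∅ := by
      rw [Finset.eq_empty_iff_forall_notMem]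
      intro S hS
      obtain ⟨h1, h2⟩ := hF S hS
      rcases htriv with h | h
      · exact h2 (isF_nbr (by omega))
      · exact h2 (isF_small h S)
    rw [this, Finset.card_empty]
    exact Nat.zero_le _
  push Not at htriv
  obtain ⟨h1, h2⟩ := htriv
  obtain ⟨m, rfl⟩ : ∃ m, n = m + 1 := ⟨n - 1, by omega⟩
  have hst : ∀ S ∈ F, S.card = k + 1 ∧ Stab S := fun S hS =>
    ⟨(hF S hS).1, stab_of (hF S hS).2 (by rw [(hF S hS).1]; omega) (by omega)⟩
  have hcard : (Finset.univ : Finset (Fin (m + 1))).card = m + 1 := by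
    rw [Finset.card_univ, Fintype.card_fin]
  have hz : r = 2 * k → ∀ S ∈ F, S.card = k + 1 ∧ Stab S ∧ (0 : Fin (m + 1)) ∈ ZS S :=
    fun hr S hS => ⟨(hst S hS).1, (hst S hS).2,
      zero_ZS (hF S hS).2 (by rw [(hF S hS).1]; omega)⟩
  rcases Nat.lt_or_ge (m + 1) (r + 4) with h3 | h3
  · -- `r + 3` points
    obtain ⟨A, B, hA, hB, hAB⟩ := exists_pair (by omega) K f hf hi
    rcases Nat.lt_or_ge r (2 * k) with h4 | h4
    · exact le_trans (count_cyc_even (k := k) (by omega) F hst)
        (two_even _ k (by omega) _ hup (Finset.subset_univ A) (Finset.subset_univ B) hA hB hAB)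
    · exact le_trans (count_path_odd (k := k) (by omega) F (hz (by omega)))
        (two_odd _ k (by omega) _ hup (Finset.subset_univ A) (Finset.subset_univ B) hA hB hAB)
  · -- `r + 4` points
    obtain ⟨L, a, hodd, hN, hd, hcl⟩ := exists_oddSeq h3 K f hf hi
    have hex : ∃ L a, OddSeq (fun A => NF K A ∧ A ⊆ (Finset.univ : Finset (Fin (m + 1)))) L a :=
      ⟨L, a, hodd, fun i hi => ⟨hN i hi, Finset.subset_univ _⟩, hd, hcl⟩
    rcases Nat.lt_or_ge r (2 * k) with h4 | h4
    · exact le_trans (count_cyc_odd (k := k) (by omega) F hst)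
        (odd_case _ k hk (by omega) _ hup hex)
    · exact le_trans (count_path_even (k := k) (by omega) F (hz (by omega)))
        (even_case _ k (by omega) _ hup hex)

/-- The comparison of the face numbers. -/
theorem faces_le {r n : ℕ} (hn4 : n ≤ r + 4) (K : Finset (Finset (Fin n)))
    (hK : ∀ σ ∈ K, ∀ τ : Finset (Fin n), τ ⊆ σ → τ.Nonempty → τ ∈ K)
    (hf : ∃ f : (Fin n → ℝ) → EuclideanSpace ℝ (Fin r),
      ContinuousOn f (Rz K) ∧ Alm K f)
    (k : ℕ) (hk : 1 ≤ k) (hkr : 2 * k ≤ r + 1) :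
    {σ : Finset (Fin n) | σ ∈ K ∧ σ.card = k + 1}.ncard ≤
      {S : Finset (Fin n) | S.card = k + 1 ∧ IsF r S}.ncard := by
  classical
  obtain ⟨f, hf, hi⟩ := hf
  have e1 : {σ : Finset (Fin n) | σ ∈ K ∧ σ.card = k + 1} =
      ↑(((Finset.univ : Finset (Fin n)).powersetCard (k + 1)).filter (fun S => ¬ NF K S)) := by
    ext S
    simp only [Set.mem_ofPred_eq, Finset.coe_filter, Finset.mem_powersetCard_univ]
    constructor
    · rintro ⟨h1, h2⟩
      exact ⟨h2, fun h => h.2 h1⟩
    · rintro ⟨h1, h2⟩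
      refine ⟨?_, h1⟩
      by_contra h3
      exact h2 ⟨Finset.card_pos.mp (by omega), h3⟩
  have e2 : {S : Finset (Fin n) | S.card = k + 1 ∧ IsF r S} =
      ↑(((Finset.univ : Finset (Fin n)).powersetCard (k + 1)).filter (fun S => ¬ ¬ IsF r S)) := by
    ext S
    simp only [Set.mem_ofPred_eq, Finset.coe_filter, Finset.mem_powersetCard_univ, not_not]
  rw [e1, e2, Set.ncard_coe_finset, Set.ncard_coe_finset]
  have h1 := Finset.card_filter_add_card_filter_not
    (s := (Finset.univ : Finset (Fin n)).powersetCard (k + 1)) (NF K)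
  have h2 := Finset.card_filter_add_card_filter_not
    (s := (Finset.univ : Finset (Fin n)).powersetCard (k + 1)) (fun S => ¬ IsF r S)
  have h3 := missing_le hn4 K hK f hf hi k hk hkr
    (((Finset.univ : Finset (Fin n)).powersetCard (k + 1)).filter (fun S => ¬ IsF r S))
    (fun S hS => by
      rw [Finset.mem_filter, Finset.mem_powersetCard_univ] at hS
      exact hS)
  omega

end Pool.Agent.Lib.MP_d9740f_co
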