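import Mathlib
import Pool.Agent.Lib.MP_d9740f_co.Cyc

/-!
# Faces of the cyclic polytope with two vertices more than a simplex

On `r + 3` points of the moment curve in dimension `r + 1` every set that misses a point with an
even and a point with an odd number is (the vertex set of) a face.
-/

namespace Pool.Agent.Lib.MP_d9740f_co

open Finset Polynomial

/-- The alternating relation for the values of a polynomial of small degree. -/
theorem alt_sum_poly {D : ℕ} (p : ℝ[X]) (hp : p.natDegree < D) :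
    ∑ k ∈ range (D + 1), (-1 : ℝ) ^ k * (D.choose k : ℝ) * p.eval (k : ℝ) = 0 := by
  have h := congrFun (Polynomial.fwdDiff_iter_eq_zero_of_degree_lt hp) 0
  rw [fwdDiff_iter_eq_sum_shift] at h
  simp only [Pi.zero_apply, zero_add, nsmul_eq_mul, mul_one] at h
  have h2 : ∑ k ∈ range (D + 1), (-1 : ℝ) ^ k * (D.choose k : ℝ) * p.eval (k : ℝ) =
      (-1) ^ D * ∑ k ∈ range (D + 1), ((-1 : ℤ) ^ (D - k) * (D.choose k : ℤ)) • p.eval (k : ℝ) := by
    rw [Finset.mul_sum]
    refine Finset.sum_congr rfl fun k hk => ?_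
    have hk' : k ≤ D := by
      rw [Finset.mem_range] at hk
      omega
    rw [zsmul_eq_mul]
    push_cast
    have e : (-1 : ℝ) ^ D * (-1) ^ (D - k) = (-1) ^ k := by
      obtain ⟨t, rfl⟩ := Nat.exists_eq_add_of_le hk'
      rw [Nat.add_sub_cancel_left, pow_add, mul_assoc, ← pow_add, ← two_mul, pow_mul]
      norm_num
    rw [← e]
    ring
  rw [h2, h, mul_zero]

theorem isF_radon {r : ℕ} {S : Finset (Fin (r + 3))} {e o : Fin (r + 3)} (he : e ∉ S)
    (ho : o ∉ S) (hev : Even (e : ℕ)) (hod : Odd (o : ℕ)) : IsF r S := by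
  classical
  set Te : Finset (Fin (r + 3)) := univ.filter (fun i => i ∉ S ∧ Even (i : ℕ)) with hTe
  set To : Finset (Fin (r + 3)) := univ.filter (fun i => i ∉ S ∧ ¬ Even (i : ℕ)) with hTo
  have hTe0 : (0 : ℝ) < (Te.card : ℝ) := by
    exact_mod_cast Finset.card_pos.mpr ⟨e, by simp [hTe, he, hev]⟩
  have hTo0 : (0 : ℝ) < (To.card : ℝ) := by
    exact_mod_cast Finset.card_pos.mpr ⟨o, by simp [hTo, ho, hod]⟩
  have hch : ∀ i : Fin (r + 3), (0 : ℝ) < ((r + 2).choose (i : ℕ) : ℝ) := fun i => by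
    exact_mod_cast Nat.choose_pos (by have := i.isLt; omega)
  set y : Fin (r + 3) → ℝ := fun i => if i ∈ S then 0 else
    if Even (i : ℕ) then ((Te.card : ℝ) * ((r + 2).choose (i : ℕ) : ℝ))⁻¹ else
      ((To.card : ℝ) * ((r + 2).choose (i : ℕ) : ℝ))⁻¹ with hy
  have hypos : ∀ i, i ∉ S → 0 < y i := by
    intro i hi
    simp only [hy, if_neg hi]
    split_ifs
    · exact inv_pos.mpr (mul_pos hTe0 (hch i))
    · exact inv_pos.mpr (mul_pos hTo0 (hch i))
  have hsum : ∑ i : Fin (r + 3), (-1 : ℝ) ^ (i : ℕ) * ((r + 2).choose (i : ℕ) : ℝ) * y i = 0 := by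
    have h1 : ∀ i : Fin (r + 3), (-1 : ℝ) ^ (i : ℕ) * ((r + 2).choose (i : ℕ) : ℝ) * y i =
        (if i ∉ S ∧ Even (i : ℕ) then (Te.card : ℝ)⁻¹ else 0) -
        (if i ∉ S ∧ ¬ Even (i : ℕ) then (To.card : ℝ)⁻¹ else 0) := by
      intro i
      have hne := (hch i).ne'
      by_cases hi : i ∈ S
      · simp [hy, hi]
      · by_cases hev' : Even (i : ℕ)
        · simp only [hy, hi, hev', if_true, if_false, not_false_eq_true, and_true, not_true,
            and_false, sub_zero, hev'.neg_one_pow, one_mul]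
          field_simp
        · have hod' : Odd (i : ℕ) := Nat.not_even_iff_odd.mp hev'
          simp only [hy, hi, hev', if_true, if_false, not_false_eq_true, and_true,
            and_false, zero_sub, hod'.neg_one_pow]
          field_simp
    rw [Finset.sum_congr rfl fun i _ => h1 i, Finset.sum_sub_distrib, ← Finset.sum_filter,
      ← Finset.sum_filter, Finset.sum_const, Finset.sum_const, ← hTe, ← hTo, nsmul_eq_mul,
      nsmul_eq_mul, mul_inv_cancel₀ hTe0.ne', mul_inv_cancel₀ hTo0.ne', sub_self]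
  have hinj : Set.InjOn (fun i : Fin (r + 3) => ((i : ℕ) : ℝ))
      ((Finset.univ.erase (Fin.last (r + 2)) : Finset (Fin (r + 3))) : Set (Fin (r + 3))) := by
    intro i _ j _ h
    have h' : ((i : ℕ) : ℝ) = ((j : ℕ) : ℝ) := h
    exact Fin.ext (by exact_mod_cast h')
  set p : ℝ[X] := Lagrange.interpolate (Finset.univ.erase (Fin.last (r + 2)))
    (fun i : Fin (r + 3) => ((i : ℕ) : ℝ)) y with hp
  have hdeg : p.natDegree ≤ r + 1 := by
    have h1 := Polynomial.natDegree_le_of_degree_le (Lagrange.degree_interpolate_le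
      (s := Finset.univ.erase (Fin.last (r + 2))) (v := fun i : Fin (r + 3) => ((i : ℕ) : ℝ))
      y hinj)
    rw [Finset.card_erase_of_mem (Finset.mem_univ _), Finset.card_univ, Fintype.card_fin] at h1
    exact le_trans h1 (by omega)
  have hnode : ∀ i : Fin (r + 3), i ≠ Fin.last (r + 2) → p.eval ((i : ℕ) : ℝ) = y i := by
    intro i hi
    exact Lagrange.eval_interpolate_at_node y hinj (Finset.mem_erase.mpr ⟨hi, Finset.mem_univ i⟩)
  have hlast : p.eval (((Fin.last (r + 2) : Fin (r + 3)) : ℕ) : ℝ) = y (Fin.last (r + 2)) := by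
    have h1 := alt_sum_poly (D := r + 2) p (by omega)
    rw [Finset.sum_range] at h1
    have h2 : ∑ i : Fin (r + 3), (-1 : ℝ) ^ (i : ℕ) * ((r + 2).choose (i : ℕ) : ℝ) *
        (p.eval ((i : ℕ) : ℝ) - y i) = 0 := by
      rw [← sub_eq_zero.mpr (h1.trans hsum.symm), ← Finset.sum_sub_distrib]
      exact Finset.sum_congr rfl fun i _ => by ring
    rw [Finset.sum_eq_single (Fin.last (r + 2))] at h2
    · have h3 : (-1 : ℝ) ^ (((Fin.last (r + 2) : Fin (r + 3))) : ℕ) *
          ((r + 2).choose (((Fin.last (r + 2) : Fin (r + 3))) : ℕ) : ℝ) ≠ 0 :=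
        mul_ne_zero (pow_ne_zero _ (by norm_num)) (hch _).ne'
      have h4 := (mul_eq_zero.mp h2).resolve_left h3
      linarith
    · intro i _ hi
      rw [hnode i hi, sub_self, mul_zero]
    · intro h
      exact absurd (Finset.mem_univ _) h
  have hall : ∀ i : Fin (r + 3), p.eval ((i : ℕ) : ℝ) = y i := by
    intro i
    by_cases hi : i = Fin.last (r + 2)
    · rw [hi]; exact hlast
    · exact hnode i hi
  refine isF_of_poly p hdeg (fun i hi => ?_) (fun i hi => ?_)
  · rw [hall i]
    simp [hy, hi]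
  · rw [hall i]
    exact hypos i hi

end Pool.Agent.Lib.MP_d9740f_co
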