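import Mathlib
import Pool.Agent.Lib.MP_d9740f_co.Main
import Pool.Agent.Lib.MP_d9740f_co.Radon

/-!
# All face numbers of the embeddable complexes with `r + 3` points
-/

namespace Pool.Agent.Lib.MP_d9740f_co

open Finset

/-- Convexity of the binomial coefficients. -/
theorem choose_conv (m a y : ℕ) (h : a ≤ y) (t : ℕ) :
    (a + t).choose m + y.choose m ≤ a.choose m + (y + t).choose m := by
  rcases m with _ | m
  · simp
  induction t with
  | zero => simp
  | succ t ih =>
    have h1 : (a + (t + 1)).choose (m + 1) = (a + t).choose m + (a + t).choose (m + 1) :=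
      Nat.choose_succ_succ (a + t) m
    have h2 : (y + (t + 1)).choose (m + 1) = (y + t).choose m + (y + t).choose (m + 1) :=
      Nat.choose_succ_succ (y + t) m
    have h3 : (a + t).choose m ≤ (y + t).choose m := Nat.choose_le_choose m (by omega)
    omega

theorem choose_bal (m a b x y : ℕ) (h : a + b = x + y) (hxy : x ≤ y) (hyx : y ≤ x + 1) :
    x.choose m + y.choose m ≤ a.choose m + b.choose m := by
  rcases Nat.lt_or_ge a b with hab | hab
  · have h1 : a ≤ x := by omega
    obtain ⟨t, rfl⟩ := Nat.exists_eq_add_of_le h1
    have h2 : b = y + t := by omega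
    rw [h2]
    exact choose_conv m a y (by omega) t
  · have h1 : b ≤ x := by omega
    obtain ⟨t, rfl⟩ := Nat.exists_eq_add_of_le h1
    have h2 : a = y + t := by omega
    rw [h2]
    have := choose_conv m b y (by omega) t
    omega

theorem card_evens (n : ℕ) :
    (univ.filter (fun i : Fin n => Even (i : ℕ))).card = (n + 1) / 2 := by
  rw [Finset.card_filter, ← Finset.sum_range (fun i => if Even i then 1 else 0)]
  induction n with
  | zero => simp
  | succ n ih =>
    rw [Finset.sum_range_succ, ih]
    split_ifs with h
    · rcases h with ⟨s, hs⟩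
      omega
    · rcases Nat.not_even_iff_odd.mp h with ⟨s, hs⟩
      omega

theorem card_odds (n : ℕ) :
    (univ.filter (fun i : Fin n => ¬ Even (i : ℕ))).card = n / 2 := by
  have h1 := Finset.card_filter_add_card_filter_not (s := (univ : Finset (Fin n)))
    (fun i : Fin n => Even (i : ℕ))
  rw [card_evens, Finset.card_univ, Fintype.card_fin] at h1
  omega

/-- The comparison of the numbers of the missing sets, for all dimensions. -/
theorem missing_le_all {r n : ℕ} (hn3 : n ≤ r + 3) (K : Finset (Finset (Fin n)))
    (hK : ∀ σ ∈ K, ∀ τ : Finset (Fin n), τ ⊆ σ → τ.Nonempty → τ ∈ K)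
    (f : (Fin n → ℝ) → EuclideanSpace ℝ (Fin r)) (hf : ContinuousOn f (Rz K))
    (hi : Alm K f) (k : ℕ)
    (F : Finset (Finset (Fin n))) (hF : ∀ S ∈ F, S.card = k + 1 ∧ ¬ IsF r S) :
    F.card ≤ (((Finset.univ : Finset (Fin n)).powersetCard (k + 1)).filter (NF K)).card := by
  classical
  have hup : ∀ A B : Finset (Fin n), A ⊆ B → NF K A → NF K B :=
    fun A B hAB hA => ⟨hA.1.mono hAB, fun hB => hA.2 (hK B hB A hAB hA.1)⟩
  by_cases htriv : n ≤ r + 2 ∨ n ≤ k + 1
  · have : F = ∅ := by
      rw [Finset.eq_empty_iff_forall_notMem]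
      intro S hS
      obtain ⟨h1, h2⟩ := hF S hS
      rcases htriv with h | h
      · exact h2 (isF_small h S)
      · have h3 : S = Finset.univ := by
          rw [← Finset.card_eq_iff_eq_univ, Fintype.card_fin]
          have := Finset.card_le_univ S
          rw [Fintype.card_fin] at this
          omega
        apply h2
        rw [h3]
        exact ⟨fun _ => 0, 0, fun i _ => by simp, fun i hi => absurd (Finset.mem_univ i) hi⟩
    rw [this, Finset.card_empty]
    exact Nat.zero_le _
  push Not at htriv
  obtain ⟨h1, h2⟩ := htriv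
  obtain rfl : n = r + 3 := by omega
  obtain ⟨m, hm⟩ : ∃ m, r + 3 = (k + 1) + (m + 1) := ⟨r + 3 - (k + 1) - 1, by omega⟩
  set E : Finset (Fin (r + 3)) := univ.filter (fun i => Even (i : ℕ)) with hE
  set O : Finset (Fin (r + 3)) := univ.filter (fun i => ¬ Even (i : ℕ)) with hO
  have hEc : E.card = (r + 3 + 1) / 2 := card_evens _
  have hOc : O.card = (r + 3) / 2 := card_odds _
  -- the missing sets of the cyclic polytope
  have hleft : F.card ≤ O.card.choose (m + 1) + E.card.choose (m + 1) := by
    have h3 : F.image compl ⊆ O.powersetCard (m + 1) ∪ E.powersetCard (m + 1) := by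
      intro M hM
      rw [Finset.mem_image] at hM
      obtain ⟨S, hS, rfl⟩ := hM
      obtain ⟨h4, h5⟩ := hF S hS
      have h6 : (Sᶜ).card = m + 1 := by
        rw [Finset.card_compl, Fintype.card_fin, h4]
        omega
      rw [Finset.mem_union, Finset.mem_powersetCard, Finset.mem_powersetCard]
      by_cases h7 : ∃ e, e ∉ S ∧ Even (e : ℕ)
      · obtain ⟨e, he, hev⟩ := h7
        right
        refine ⟨fun o ho => ?_, h6⟩
        rw [Finset.mem_compl] at ho
        simp only [hE, Finset.mem_filter, Finset.mem_univ, true_and]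
        by_contra hod
        exact h5 (isF_radon he ho hev (Nat.not_even_iff_odd.mp hod))
      · push Not at h7
        left
        refine ⟨fun o ho => ?_, h6⟩
        rw [Finset.mem_compl] at ho
        simp only [hO, Finset.mem_filter, Finset.mem_univ, true_and]
        exact h7 o ho
    have h4 := Finset.card_le_card h3
    rw [Finset.card_image_of_injective _ compl_injective] at h4
    refine le_trans h4 (le_trans (Finset.card_union_le _ _) ?_)
    rw [Finset.card_powersetCard, Finset.card_powersetCard]
  obtain ⟨A, B, hA, hB, hAB⟩ := exists_pair (le_refl _) K f hf hi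
  have hright : A.card.choose (m + 1) + (Aᶜ).card.choose (m + 1) ≤
      (((Finset.univ : Finset (Fin (r + 3))).powersetCard (k + 1)).filter (NF K)).card := by
    have hdis : Disjoint (A.powersetCard (m + 1)) ((Aᶜ).powersetCard (m + 1)) := by
      rw [Finset.disjoint_left]
      intro M hM hM'
      rw [Finset.mem_powersetCard] at hM hM'
      obtain ⟨x, hx⟩ := Finset.card_pos.mp (by omega : 0 < M.card)
      exact (Finset.mem_compl.mp (hM'.1 hx)) (hM.1 hx)
    have h3 : (A.powersetCard (m + 1) ∪ (Aᶜ).powersetCard (m + 1)).image compl ⊆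
        ((Finset.univ : Finset (Fin (r + 3))).powersetCard (k + 1)).filter (NF K) := by
      intro S hS
      rw [Finset.mem_image] at hS
      obtain ⟨M, hM, rfl⟩ := hS
      rw [Finset.mem_union, Finset.mem_powersetCard, Finset.mem_powersetCard] at hM
      rw [Finset.mem_filter, Finset.mem_powersetCard_univ, Finset.card_compl, Fintype.card_fin]
      rcases hM with ⟨h4, h5⟩ | ⟨h4, h5⟩
      · refine ⟨by omega, hup B _ (fun x hx => ?_) hB⟩
        rw [Finset.mem_compl]
        intro hxM
        exact (Finset.disjoint_left.mp hAB) (h4 hxM) hx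
      · refine ⟨by omega, hup A _ (fun x hx => ?_) hA⟩
        rw [Finset.mem_compl]
        intro hxM
        exact (Finset.mem_compl.mp (h4 hxM)) hx
    have h4 := Finset.card_le_card h3
    rw [Finset.card_image_of_injective _ compl_injective, Finset.card_union_of_disjoint hdis,
      Finset.card_powersetCard, Finset.card_powersetCard] at h4
    exact h4
  refine le_trans hleft (le_trans (choose_bal (m + 1) A.card (Aᶜ).card O.card E.card ?_ ?_ ?_)
    hright)
  · rw [Finset.card_add_card_compl, Fintype.card_fin, hEc, hOc]
    omega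
  · omega
  · omega

end Pool.Agent.Lib.MP_d9740f_co
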