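import Mathlib
import Pool.Agent.Lib.MP_d9740f_co.Cyc
import Pool.Agent.Lib.MP_d9740f_co.Odd

/-!
# Odd closed sequences and tournaments

An odd closed sequence of consecutively disjoint sets orients the pairs of points in such a way that
three points which together meet all sets of the sequence form a directed cycle.
-/

namespace Pool.Agent.Lib.MP_d9740f_co

open Finset

section tournament

variable {n : ℕ} (T : Fin n → Fin n → Prop) [DecidableRel T]

/-- The points dominated by `u`. -/
def outs (u : Fin n) : Finset (Fin n) := univ.filter (fun v => T u v)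

/-- A tournament: of two different points exactly one dominates the other. -/
def IsTour : Prop := (∀ u, ¬ T u u) ∧ (∀ u v, T u v → ¬ T v u) ∧ ∀ u v, u ≠ v → T u v ∨ T v u

variable {T}

theorem sum_outs (h : IsTour T) : 2 * ∑ u, (outs T u).card = n * (n - 1) := by
  classical
  have h1 : ∑ u, (outs T u).card = ∑ u, (univ.filter (fun v => T v u)).card := by
    simp only [outs, Finset.card_filter]
    rw [Finset.sum_comm]
  have h2 : ∀ u, (outs T u).card + (univ.filter (fun v => T v u)).card = n - 1 := by
    intro u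
    have hdis : Disjoint (outs T u) (univ.filter (fun v => T v u)) := by
      rw [Finset.disjoint_left]
      intro v hv hv'
      simp only [outs, Finset.mem_filter, Finset.mem_univ, true_and] at hv hv'
      exact h.2.1 u v hv hv'
    rw [← Finset.card_union_of_disjoint hdis]
    have h3 : outs T u ∪ univ.filter (fun v => T v u) = univ.erase u := by
      ext v
      simp only [outs, Finset.mem_union, Finset.mem_filter, Finset.mem_univ, true_and,
        Finset.mem_erase, and_true]
      constructor
      · rintro (hv | hv) rfl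
        · exact h.1 _ hv
        · exact h.1 _ hv
      · intro hv
        exact h.2.2 u v (Ne.symm hv)
    rw [h3, Finset.card_erase_of_mem (Finset.mem_univ u), Finset.card_univ, Fintype.card_fin]
  have h3 : ∑ u, (outs T u).card + ∑ u, (univ.filter (fun v => T v u)).card = n * (n - 1) := by
    rw [← Finset.sum_add_distrib, Finset.sum_congr rfl fun u _ => h2 u, Finset.sum_const,
      Finset.card_univ, Fintype.card_fin, smul_eq_mul]
  omega

/-- The triples with a source. -/
def trans (T : Fin n → Fin n → Prop) [DecidableRel T] : Finset (Finset (Fin n)) :=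
  univ.biUnion fun u => ((outs T u).powersetCard 2).image (insert u)

theorem card_trans (h : IsTour T) : (trans T).card = ∑ u, (outs T u).card.choose 2 := by
  classical
  have hu : ∀ u, u ∉ outs T u := fun u hu' => by
    simp only [outs, Finset.mem_filter, Finset.mem_univ, true_and] at hu'
    exact h.1 u hu'
  rw [trans, Finset.card_biUnion]
  · refine Finset.sum_congr rfl fun u _ => ?_
    rw [Finset.card_image_of_injOn, Finset.card_powersetCard]
    intro Q hQ Q' hQ' heq
    rw [Finset.mem_coe, Finset.mem_powersetCard] at hQ hQ'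
    have h1 : u ∉ Q := fun hq => hu u (hQ.1 hq)
    have h2 : u ∉ Q' := fun hq => hu u (hQ'.1 hq)
    have heq' : insert u Q = insert u Q' := heq
    rw [← Finset.erase_insert h1, heq', Finset.erase_insert h2]
  · intro u _ v _ huv
    rw [Function.onFun, Finset.disjoint_left]
    intro M hM hM'
    rw [Finset.mem_image] at hM hM'
    obtain ⟨Q, hQ, rfl⟩ := hM
    obtain ⟨Q', hQ', heq⟩ := hM'
    rw [Finset.mem_powersetCard] at hQ hQ'
    have h1 : v ∈ Q := by
      have : v ∈ insert u Q := by rw [← heq]; exact Finset.mem_insert_self _ _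
      exact (Finset.mem_insert.mp this).resolve_left (Ne.symm huv)
    have h2 : u ∈ Q' := by
      have : u ∈ insert v Q' := by rw [heq]; exact Finset.mem_insert_self _ _
      exact (Finset.mem_insert.mp this).resolve_left huv
    have h3 := hQ.1 h1
    have h4 := hQ'.1 h2
    simp only [outs, Finset.mem_filter, Finset.mem_univ, true_and] at h3 h4
    exact h.2.1 u v h3 h4

/-- Balanced tournaments have the smallest number of triples with a source. -/
theorem trans_le {T' : Fin n → Fin n → Prop} [DecidableRel T'] (h : IsTour T) (h' : IsTour T')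
    (hb : ∀ u, (outs T' u).card = (n - 1) / 2 ∨ (outs T' u).card = (n - 1) / 2 + 1) :
    (trans T').card ≤ (trans T).card := by
  rw [card_trans h, card_trans h']
  set e := (n - 1) / 2 with he
  have h1 : ∀ d : ℕ, ((d.choose 2 : ℕ) : ℚ) = (d : ℚ) * ((d : ℚ) - 1) / 2 := fun d =>
    Nat.cast_choose_two ℚ d
  have hlow : ∀ d : ℕ, ((e.choose 2 : ℕ) : ℚ) + e * ((d : ℚ) - e) ≤ ((d.choose 2 : ℕ) : ℚ) := by
    intro d
    rw [h1, h1]
    have h2 : (0 : ℚ) ≤ ((d : ℚ) - e) * (((d : ℚ) - e) - 1) := by
      have h3 : (0 : ℤ) ≤ ((d : ℤ) - e) * (((d : ℤ) - e) - 1) := by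
        rcases le_or_gt ((d : ℤ) - e) 0 with h4 | h4
        · nlinarith
        · nlinarith
      exact_mod_cast h3
    nlinarith
  have heq : ∀ u, (((outs T' u).card.choose 2 : ℕ) : ℚ) =
      ((e.choose 2 : ℕ) : ℚ) + e * (((outs T' u).card : ℚ) - e) := by
    intro u
    rcases hb u with h2 | h2
    · rw [h2]; ring
    · rw [h2, h1, h1]
      push_cast
      ring
  have hs : ∑ u, (outs T u).card = ∑ u, (outs T' u).card := by
    have h2 := sum_outs h
    have h3 := sum_outs h'
    omega
  have hq : ((∑ u, (outs T' u).card.choose 2 : ℕ) : ℚ) ≤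
      ((∑ u, (outs T u).card.choose 2 : ℕ) : ℚ) := by
    push_cast
    rw [Finset.sum_congr rfl fun u _ => heq u]
    refine le_trans (le_of_eq ?_) (Finset.sum_le_sum fun u _ => hlow (outs T u).card)
    rw [Finset.sum_add_distrib, Finset.sum_add_distrib, ← Finset.mul_sum, ← Finset.mul_sum,
      Finset.sum_sub_distrib, Finset.sum_sub_distrib]
    have h2 : (∑ u, ((outs T' u).card : ℚ)) = ∑ u, ((outs T u).card : ℚ) := by
      exact_mod_cast hs.symm
    rw [h2]
  exact_mod_cast hq

end tournament

/-! ### The tournament of an odd closed sequence -/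

section winding

variable {n : ℕ}

/-- The indicator. -/
def ind (a : ℕ → Finset (Fin n)) (u : Fin n) (i : ℕ) : ℤ := if u ∈ a i then 1 else 0

/-- The number of passages from `u` to `v`, minus the number of those from `v` to `u`. -/
def nn (L : ℕ) (a : ℕ → Finset (Fin n)) (u v : Fin n) : ℤ :=
  ∑ i ∈ range L, (ind a u i * ind a v (i + 1) - ind a v i * ind a u (i + 1))

theorem nn_anti (L : ℕ) (a : ℕ → Finset (Fin n)) (u v : Fin n) : nn L a v u = -nn L a u v := by
  unfold nn
  rw [← Finset.sum_neg_distrib]
  exact Finset.sum_congr rfl fun i _ => by ring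

/-- The three points together meet all the sets. -/
def Cov (L : ℕ) (a : ℕ → Finset (Fin n)) (u v w : Fin n) : Prop :=
  ∀ i < L, u ∈ a i ∨ v ∈ a i ∨ w ∈ a i

theorem tele (L : ℕ) (g : ℕ → ℤ) : ∑ i ∈ range L, (g (i + 1) - g i) = g L - g 0 :=
  Finset.sum_range_sub g L

theorem nn_eq {N : Finset (Fin n) → Prop} {L : ℕ} {a : ℕ → Finset (Fin n)} (h : OddSeq N L a)
    {u v w : Fin n} (hc : Cov L a u v w) : nn L a u v = nn L a v w := by
  obtain ⟨hodd, hN, hd, hcl⟩ := h
  have hL : 0 < L := hodd.pos
  have hc' : ∀ i ≤ L, u ∈ a i ∨ v ∈ a i ∨ w ∈ a i := by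
    intro i hi
    rcases Nat.lt_or_ge i L with h1 | h1
    · exact hc i h1
    · obtain rfl : i = L := le_antisymm hi h1
      rw [hcl]
      exact hc 0 hL
  have hkey : nn L a u v - nn L a v w =
      ∑ i ∈ range L, ((ind a v (i + 1) - ind a v i) -
        (ind a u (i + 1) * ind a w (i + 1) - ind a u i * ind a w i)) := by
    unfold nn
    rw [← Finset.sum_sub_distrib]
    refine Finset.sum_congr rfl fun i hi => ?_
    have hi' := Finset.mem_range.mp hi
    have hdi := Finset.disjoint_left.mp (hd i hi')
    have c1 := hc' i hi'.le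
    have c2 := hc' (i + 1) hi'
    have du := @hdi u
    have dv := @hdi v
    have dw := @hdi w
    unfold ind
    by_cases hu : u ∈ a i <;> by_cases hv : v ∈ a i <;> by_cases hw : w ∈ a i <;>
      by_cases hu' : u ∈ a (i + 1) <;> by_cases hv' : v ∈ a (i + 1) <;>
      by_cases hw' : w ∈ a (i + 1) <;>
      simp_all
  rw [Finset.sum_sub_distrib, tele L (ind a v), tele L (fun i => ind a u i * ind a w i)] at hkey
  have e1 : ind a v L = ind a v 0 := by unfold ind; rw [hcl]
  have e2 : ind a u L = ind a u 0 := by unfold ind; rw [hcl]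
  have e3 : ind a w L = ind a w 0 := by unfold ind; rw [hcl]
  rw [e1, e2, e3] at hkey
  linarith

theorem nn_odd {N : Finset (Fin n) → Prop} {L : ℕ} {a : ℕ → Finset (Fin n)} (h : OddSeq N L a)
    {u v w : Fin n} (hc : Cov L a u v w) :
    Odd (nn L a u v + nn L a v w + nn L a w u) := by
  obtain ⟨hodd, hN, hd, hcl⟩ := h
  have hL : 0 < L := hodd.pos
  have hc' : ∀ i ≤ L, u ∈ a i ∨ v ∈ a i ∨ w ∈ a i := by
    intro i hi
    rcases Nat.lt_or_ge i L with h1 | h1
    · exact hc i h1
    · obtain rfl : i = L := le_antisymm hi h1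
      rw [hcl]
      exact hc 0 hL
  set s : ℕ → ℤ := fun i => ind a u i + ind a v i + ind a w i with hs
  have hkey : nn L a u v + nn L a v w + nn L a w u =
      ∑ i ∈ range L, (s i + s (i + 1) - 1 - 2 * (ind a v i * ind a u (i + 1) +
        ind a w i * ind a v (i + 1) + ind a u i * ind a w (i + 1))) := by
    unfold nn
    rw [← Finset.sum_add_distrib, ← Finset.sum_add_distrib]
    refine Finset.sum_congr rfl fun i hi => ?_
    have hi' := Finset.mem_range.mp hi
    have hdi := Finset.disjoint_left.mp (hd i hi')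
    have c1 := hc' i hi'.le
    have c2 := hc' (i + 1) hi'
    have du := @hdi u
    have dv := @hdi v
    have dw := @hdi w
    simp only [hs]
    unfold ind
    by_cases hu : u ∈ a i <;> by_cases hv : v ∈ a i <;> by_cases hw : w ∈ a i <;>
      by_cases hu' : u ∈ a (i + 1) <;> by_cases hv' : v ∈ a (i + 1) <;>
      by_cases hw' : w ∈ a (i + 1) <;>
      simp_all
  have hshift : ∑ i ∈ range L, s (i + 1) = ∑ i ∈ range L, s i := by
    have h1 := tele L s
    have h2 : s L = s 0 := by simp only [hs]; unfold ind; rw [hcl]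
    rw [Finset.sum_sub_distrib, h2, sub_self] at h1
    linarith
  rw [hkey, Finset.sum_sub_distrib, Finset.sum_sub_distrib, Finset.sum_add_distrib, hshift,
    ← Finset.mul_sum, Finset.sum_const, Finset.card_range, nsmul_eq_mul, mul_one]
  obtain ⟨t, ht⟩ := hodd
  rw [ht]
  push_cast
  refine ⟨∑ i ∈ range (2 * t + 1), s i - t - 1 - ∑ i ∈ range (2 * t + 1),
    (ind a v i * ind a u (i + 1) + ind a w i * ind a v (i + 1) + ind a u i * ind a w (i + 1)), ?_⟩
  ring

/-- The tournament. -/
def TT (L : ℕ) (a : ℕ → Finset (Fin n)) (u v : Fin n) : Prop :=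
  0 < nn L a u v ∨ (nn L a u v = 0 ∧ u < v)

instance (L : ℕ) (a : ℕ → Finset (Fin n)) : DecidableRel (TT L a) := fun _ _ =>
  inferInstanceAs (Decidable (_ ∨ _))

theorem isTour_TT (L : ℕ) (a : ℕ → Finset (Fin n)) : IsTour (TT L a) := by
  have h0 : ∀ u, nn L a u u = 0 := fun u => by
    have := nn_anti L a u u
    linarith
  refine ⟨fun u hu => ?_, fun u v huv hvu => ?_, fun u v huv => ?_⟩
  · rcases hu with h | h
    · rw [h0] at h; exact lt_irrefl _ h
    · exact lt_irrefl _ h.2
  · have h1 := nn_anti L a u v
    rcases huv with h | ⟨h, h'⟩ <;> rcases hvu with h2 | ⟨h2, h2'⟩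
    · linarith
    · linarith
    · linarith
    · exact lt_asymm h' h2'
  · have h1 := nn_anti L a u v
    rcases lt_trichotomy (nn L a u v) 0 with h | h | h
    · right; left; linarith
    · rcases lt_or_gt_of_ne huv with h2 | h2
      · exact Or.inl (Or.inr ⟨h, h2⟩)
      · exact Or.inr (Or.inr ⟨by linarith, h2⟩)
    · exact Or.inl (Or.inl h)

/-- A triple with a source does not meet all the sets. -/
theorem not_cov_of_source {N : Finset (Fin n) → Prop} {L : ℕ} {a : ℕ → Finset (Fin n)}
    (h : OddSeq N L a) {u v w : Fin n}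
    (h1 : TT L a u v) (h2 : TT L a u w) : ¬ Cov L a u v w := by
  intro hc
  have hc2 : Cov L a v w u := fun i hi => by
    rcases hc i hi with h | h | h
    · exact Or.inr (Or.inr h)
    · exact Or.inl h
    · exact Or.inr (Or.inl h)
  have e1 := nn_eq h hc
  have e2 := nn_eq h hc2
  have e3 := nn_odd h hc
  have e4 := nn_anti L a u w
  have hne : nn L a u v ≠ 0 := by
    intro h0
    rw [← e2, ← e1, h0] at e3
    exact absurd e3 (by decide)
  have hp : 0 < nn L a u v := by
    rcases h1 with h1 | h1
    · exact h1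
    · exact absurd h1.1 hne
  have hq : nn L a u w < 0 := by
    linarith
  rcases h2 with h2 | h2
  · linarith
  · linarith [h2.1]

end winding

end Pool.Agent.Lib.MP_d9740f_co
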