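import Mathlib
import Pool.Agent.Lib.MP_d9740f_co.Tour

/-!
# The facets of the cyclic polytope with `r + 4` vertices
-/

namespace Pool.Agent.Lib.MP_d9740f_co

open Finset Polynomial

/-- The sign of a product of differences. -/
theorem sign_prod {n : ℕ} (S : Finset (Fin n)) (x : Fin n) (hx : x ∉ S) :
    0 < (-1 : ℝ) ^ ((S.filter (fun s => x < s)).card) *
      ∏ s ∈ S, (((x : ℕ) : ℝ) - ((s : ℕ) : ℝ)) := by
  classical
  induction S using Finset.induction_on with
  | empty => simp
  | insert y S hy ih =>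
    have hxy : x ≠ y := fun h => hx (h ▸ Finset.mem_insert_self _ _)
    have hxS : x ∉ S := fun h => hx (Finset.mem_insert_of_mem h)
    have ih' := ih hxS
    rw [Finset.prod_insert hy, Finset.filter_insert]
    rcases lt_or_gt_of_ne hxy with h | h
    · rw [if_pos h, Finset.card_insert_of_notMem (fun h' => hy (Finset.mem_of_mem_filter _ h')),
        pow_succ]
      have h1 : ((x : ℕ) : ℝ) < ((y : ℕ) : ℝ) := by exact_mod_cast h
      have h2 : 0 < ((y : ℕ) : ℝ) - ((x : ℕ) : ℝ) := by linarith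
      have := mul_pos ih' h2
      calc (0 : ℝ) < _ := this
        _ = _ := by ring
    · rw [if_neg (not_lt.mpr h.le)]
      have h1 : ((y : ℕ) : ℝ) < ((x : ℕ) : ℝ) := by exact_mod_cast h
      have h2 : 0 < ((x : ℕ) : ℝ) - ((y : ℕ) : ℝ) := by linarith
      have := mul_pos ih' h2
      calc (0 : ℝ) < _ := this
        _ = _ := by ring

/-- The complement of an alternating triple is the vertex set of a facet. -/
theorem isF_alt {r : ℕ} {S : Finset (Fin (r + 4))} {a b c : Fin (r + 4)} (hab : a < b)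
    (hbc : b < c) (hS : Sᶜ = {a, b, c}) (h1 : Odd ((b : ℕ) - (a : ℕ)))
    (h2 : Odd ((c : ℕ) - (b : ℕ))) : IsF r S := by
  classical
  have hab' : (a : ℕ) < (b : ℕ) := hab
  have hbc' : (b : ℕ) < (c : ℕ) := hbc
  have hc' := c.isLt
  have hmem : ∀ x, x ∉ S ↔ x = a ∨ x = b ∨ x = c := by
    intro x
    rw [← Finset.mem_compl, hS]
    simp
  have hcard : ({a, b, c} : Finset (Fin (r + 4))).card = 3 := by
    rw [Finset.card_insert_of_notMem, Finset.card_insert_of_notMem, Finset.card_singleton]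
    · simp [hbc.ne]
    · simp [hab.ne, (hab.trans hbc).ne]
  have hScard : S.card = r + 1 := by
    have := Finset.card_compl S
    rw [hS, hcard, Fintype.card_fin] at this
    have h3 := Finset.card_le_univ S
    rw [Fintype.card_fin] at h3
    omega
  -- the number of points behind a point
  have hcount : ∀ x : Fin (r + 4), (S.filter (fun s => x < s)).card +
      (({a, b, c} : Finset (Fin (r + 4))).filter (fun s => x < s)).card = r + 4 - 1 - (x : ℕ) := by
    intro x
    rw [← hS, ← Finset.card_union_of_disjoint (Finset.disjoint_filter_filter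
      (disjoint_compl_right)), ← Finset.filter_union, Finset.union_compl]
    have h3 : (univ : Finset (Fin (r + 4))).filter (fun s => x < s) = Finset.Ioi x := by
      ext s
      simp
    rw [h3, Fin.card_Ioi]
  have ha := hcount a
  have hb := hcount b
  have hc := hcount c
  have fa : (({a, b, c} : Finset (Fin (r + 4))).filter (fun s => a < s)) = {b, c} := by
    ext s
    simp only [Finset.mem_filter, Finset.mem_insert, Finset.mem_singleton]
    constructor
    · rintro ⟨h | h | h, h3⟩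
      · rw [h] at h3; exact absurd h3 (lt_irrefl _)
      · exact Or.inl h
      · exact Or.inr h
    · rintro (h | h)
      · rw [h]; exact ⟨Or.inr (Or.inl rfl), hab⟩
      · rw [h]; exact ⟨Or.inr (Or.inr rfl), hab.trans hbc⟩
  have fb : (({a, b, c} : Finset (Fin (r + 4))).filter (fun s => b < s)) = {c} := by
    ext s
    simp only [Finset.mem_filter, Finset.mem_insert, Finset.mem_singleton]
    constructor
    · rintro ⟨h | h | h, h3⟩
      · rw [h] at h3; exact absurd h3 (not_lt.mpr hab.le)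
      · rw [h] at h3; exact absurd h3 (lt_irrefl _)
      · exact h
    · rintro h
      rw [h]; exact ⟨Or.inr (Or.inr rfl), hbc⟩
  have fc : (({a, b, c} : Finset (Fin (r + 4))).filter (fun s => c < s)) = ∅ := by
    ext s
    simp only [Finset.mem_filter, Finset.mem_insert, Finset.mem_singleton, Finset.notMem_empty,
      iff_false, not_and]
    rintro (h | h | h)
    · rw [h]; exact not_lt.mpr (hab.trans hbc).le
    · rw [h]; exact not_lt.mpr hbc.le
    · rw [h]; exact lt_irrefl _
  rw [fa, Finset.card_pair hbc.ne] at ha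
  rw [fb, Finset.card_singleton] at hb
  rw [fc, Finset.card_empty] at hc
  set κ := (S.filter (fun s => a < s)).card with hκ
  have hpb : ((-1 : ℝ)) ^ ((S.filter (fun s => b < s)).card) = (-1) ^ κ := by
    have : (S.filter (fun s => b < s)).card % 2 = κ % 2 := by
      rcases h1 with ⟨t, ht⟩
      omega
    rw [neg_one_pow_eq_pow_mod_two, this, ← neg_one_pow_eq_pow_mod_two]
  have hpc : ((-1 : ℝ)) ^ ((S.filter (fun s => c < s)).card) = (-1) ^ κ := by
    have : (S.filter (fun s => c < s)).card % 2 = κ % 2 := by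
      rcases h1 with ⟨t, ht⟩
      rcases h2 with ⟨t', ht'⟩
      omega
    rw [neg_one_pow_eq_pow_mod_two, this, ← neg_one_pow_eq_pow_mod_two]
  have heval : ∀ x : Fin (r + 4), (C ((-1 : ℝ) ^ κ) * ∏ s ∈ S, (X - C ((s : ℕ) : ℝ))).eval
      ((x : ℕ) : ℝ) = (-1 : ℝ) ^ κ * ∏ s ∈ S, (((x : ℕ) : ℝ) - ((s : ℕ) : ℝ)) := by
    intro x
    rw [Polynomial.eval_mul, Polynomial.eval_C, Polynomial.eval_prod]
    simp
  refine isF_of_poly (C ((-1 : ℝ) ^ κ) * ∏ s ∈ S, (X - C ((s : ℕ) : ℝ))) ?_
    (fun i hi => ?_) (fun i hi => ?_)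
  · refine le_trans (Polynomial.natDegree_C_mul_le _ _) ?_
    rw [Polynomial.natDegree_prod_of_monic _ _ (fun s _ => Polynomial.monic_X_sub_C _),
      Finset.sum_congr rfl fun s _ => Polynomial.natDegree_X_sub_C _, Finset.sum_const, hScard,
      smul_eq_mul, mul_one]
  · rw [heval, Finset.prod_eq_zero hi (sub_self _), mul_zero]
  · rw [heval]
    have h3 := sign_prod S i hi
    rcases (hmem i).mp hi with h | h | h
    · rw [h] at h3 ⊢
      exact h3
    · rw [h] at h3 ⊢
      rw [hpb] at h3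
      exact h3
    · rw [h] at h3 ⊢
      rw [hpc] at h3
      exact h3

/-- The parity tournament. -/
def PT (n : ℕ) (u v : Fin n) : Prop :=
  ((u : ℕ) < (v : ℕ) ∧ ((v : ℕ) - (u : ℕ)) % 2 = 1) ∨
    ((v : ℕ) < (u : ℕ) ∧ ((u : ℕ) - (v : ℕ)) % 2 = 0)

instance (n : ℕ) : DecidableRel (PT n) := fun _ _ => inferInstanceAs (Decidable (_ ∨ _))

theorem isTour_PT (n : ℕ) : IsTour (PT n) := by
  refine ⟨fun u hu => ?_, fun u v huv hvu => ?_, fun u v huv => ?_⟩
  · unfold PT at hu; omega
  · unfold PT at huv hvu; omega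
  · have : (u : ℕ) ≠ (v : ℕ) := fun h => huv (Fin.ext h)
    unfold PT; omega

theorem cntA (u : ℕ) : ∀ N : ℕ, ((range N).filter (fun v => u < v ∧ (v - u) % 2 = 1)).card =
    (N - u) / 2 := by
  intro N
  induction N with
  | zero => simp
  | succ N ih =>
    rw [Finset.range_add_one, Finset.filter_insert]
    split_ifs with h
    · rw [Finset.card_insert_of_notMem (by simp), ih]
      omega
    · rw [ih]
      omega

theorem cntB (u : ℕ) : ∀ N : ℕ, N ≤ u →
    ((range N).filter (fun v => v < u ∧ (u - v) % 2 = 0)).card = u / 2 - (u - N) / 2 := by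
  intro N
  induction N with
  | zero => simp
  | succ N ih =>
    intro hN
    have ih' := ih (by omega)
    rw [Finset.range_add_one, Finset.filter_insert]
    split_ifs with h
    · rw [Finset.card_insert_of_notMem (by simp), ih']
      omega
    · rw [ih']
      omega

theorem outs_PT (n : ℕ) (u : Fin n) : (outs (PT n) u).card = (n - 1) / 2 ∨
    (outs (PT n) u).card = (n - 1) / 2 + 1 := by
  classical
  have hu := u.isLt
  have h1 : (outs (PT n) u).card = ((range n).filter (fun v =>
      ((u : ℕ) < v ∧ (v - (u : ℕ)) % 2 = 1) ∨ (v < (u : ℕ) ∧ ((u : ℕ) - v) % 2 = 0))).card := by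
    rw [← Finset.card_map Fin.valEmbedding]
    congr 1
    ext v
    rw [Finset.mem_map, Finset.mem_filter, Finset.mem_range]
    constructor
    · rintro ⟨w, hw, rfl⟩
      exact ⟨w.isLt, (Finset.mem_filter.mp hw).2⟩
    · rintro ⟨hv, h⟩
      exact ⟨⟨v, hv⟩, Finset.mem_filter.mpr ⟨Finset.mem_univ _, h⟩, rfl⟩
  have h2 : ((range n).filter (fun v => v < (u : ℕ) ∧ ((u : ℕ) - v) % 2 = 0)) =
      ((range (u : ℕ)).filter (fun v => v < (u : ℕ) ∧ ((u : ℕ) - v) % 2 = 0)) := by
    ext v
    simp only [Finset.mem_filter, Finset.mem_range]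
    omega
  have h3 := cntA u n
  have h4 := cntB u u (le_refl _)
  rw [h1, Finset.filter_or, Finset.card_union_of_disjoint, h3, h2, h4]
  · omega
  · rw [Finset.disjoint_filter]
    intro v _ h h'
    omega

theorem exists_sorted {n : ℕ} {M : Finset (Fin n)} (h : M.card = 3) :
    ∃ a b c, a < b ∧ b < c ∧ M = {a, b, c} := by
  obtain ⟨x, y, z, hxy, hxz, hyz, rfl⟩ := Finset.card_eq_three.mp h
  rcases lt_or_gt_of_ne hxy with h1 | h1 <;> rcases lt_or_gt_of_ne hxz with h2 | h2 <;>
    rcases lt_or_gt_of_ne hyz with h3 | h3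
  · exact ⟨x, y, z, h1, h3, rfl⟩
  · exact ⟨x, z, y, h2, h3, by ext s; simp; tauto⟩
  · exact absurd (h1.trans h3) (lt_asymm h2)
  · exact ⟨z, x, y, h2, h1, by ext s; simp; tauto⟩
  · exact ⟨y, x, z, h1, h2, by ext s; simp; tauto⟩
  · exact absurd (h2.trans h3) (lt_asymm h1)
  · exact ⟨y, z, x, h3, h2, by ext s; simp; tauto⟩
  · exact ⟨z, y, x, h3, h1, by ext s; simp; tauto⟩

/-- The missing sets of size `r + 1` of the cyclic polytope with `r + 4` vertices. -/
theorem mem_trans_PT {r : ℕ} {S : Finset (Fin (r + 4))} (hc : S.card = r + 1)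
    (hS : ¬ IsF r S) : Sᶜ ∈ trans (PT (r + 4)) := by
  classical
  have h3 : (Sᶜ).card = 3 := by
    rw [Finset.card_compl, Fintype.card_fin, hc]
    omega
  obtain ⟨a, b, c, hab, hbc, hM⟩ := exists_sorted h3
  have hab' : (a : ℕ) < (b : ℕ) := hab
  have hbc' : (b : ℕ) < (c : ℕ) := hbc
  have key : ∀ u v w : Fin (r + 4), v ≠ w → PT (r + 4) u v → PT (r + 4) u w →
      Sᶜ = insert u {v, w} → Sᶜ ∈ trans (PT (r + 4)) := by
    intro u v w hvw h1 h2 h4
    unfold trans
    rw [Finset.mem_biUnion]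
    refine ⟨u, Finset.mem_univ _, Finset.mem_image.mpr ⟨{v, w}, ?_, h4.symm⟩⟩
    rw [Finset.mem_powersetCard]
    refine ⟨?_, Finset.card_pair hvw⟩
    intro x hx
    rw [Finset.mem_insert, Finset.mem_singleton] at hx
    simp only [outs, Finset.mem_filter, Finset.mem_univ, true_and]
    rcases hx with rfl | rfl
    · exact h1
    · exact h2
  by_cases h1 : ((b : ℕ) - (a : ℕ)) % 2 = 1
  · by_cases h2 : ((c : ℕ) - (b : ℕ)) % 2 = 1
    · exact absurd (isF_alt hab hbc hM (Nat.odd_iff.mpr h1) (Nat.odd_iff.mpr h2)) hS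
    · exact key a b c hbc.ne (Or.inl ⟨hab', h1⟩) (Or.inl ⟨hab'.trans hbc', by omega⟩) hM
  · by_cases h2 : ((c : ℕ) - (b : ℕ)) % 2 = 1
    · refine key b a c (hab.trans hbc).ne (Or.inr ⟨hab', by omega⟩) (Or.inl ⟨hbc', h2⟩) ?_
      rw [hM]
      ext s
      simp
      tauto
    · refine key c a b hab.ne (Or.inr ⟨hab'.trans hbc', by omega⟩) (Or.inr ⟨hbc', by omega⟩) ?_
      rw [hM]
      ext s
      simp
      tauto

end Pool.Agent.Lib.MP_d9740f_co
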