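import Mathlib
import Pool.Agent.Lib.MP_d9740f_co.AllK
import Pool.Agent.Lib.MP_d9740f_co.Par

/-!
# The top-dimensional faces of the embeddable complexes with `r + 4` points
-/

namespace Pool.Agent.Lib.MP_d9740f_co

open Finset

/-- The comparison of the numbers of the missing sets with `r + 1` elements, `r + 4` points. -/
theorem missing_le_top {r : ℕ} (K : Finset (Finset (Fin (r + 4))))
    (hK : ∀ σ ∈ K, ∀ τ : Finset (Fin (r + 4)), τ ⊆ σ → τ.Nonempty → τ ∈ K)
    (f : (Fin (r + 4) → ℝ) → EuclideanSpace ℝ (Fin r)) (hf : ContinuousOn f (Rz K))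
    (hi : Alm K f)
    (F : Finset (Finset (Fin (r + 4)))) (hF : ∀ S ∈ F, S.card = r + 1 ∧ ¬ IsF r S) :
    F.card ≤ (((Finset.univ : Finset (Fin (r + 4))).powersetCard (r + 1)).filter (NF K)).card := by
  classical
  have hup : ∀ A B : Finset (Fin (r + 4)), A ⊆ B → NF K A → NF K B :=
    fun A B hAB hA => ⟨hA.1.mono hAB, fun hB => hA.2 (hK B hB A hAB hA.1)⟩
  obtain ⟨L, a, hodd⟩ := exists_oddSeq (le_refl _) K f hf hi
  have h1 : F.card ≤ (trans (PT (r + 4))).card := by
    rw [← Finset.card_image_of_injective F compl_injective]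
    refine Finset.card_le_card fun M hM => ?_
    rw [Finset.mem_image] at hM
    obtain ⟨S, hS, rfl⟩ := hM
    exact mem_trans_PT (hF S hS).1 (hF S hS).2
  have h2 : (trans (PT (r + 4))).card ≤ (trans (TT L a)).card :=
    trans_le (isTour_TT L a) (isTour_PT (r + 4)) (outs_PT (r + 4))
  have h3 : (trans (TT L a)).card ≤
      (((Finset.univ : Finset (Fin (r + 4))).powersetCard (r + 1)).filter (NF K)).card := by
    rw [← Finset.card_image_of_injective (trans (TT L a)) compl_injective]
    refine Finset.card_le_card fun S hS => ?_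
    rw [Finset.mem_image] at hS
    obtain ⟨M, hM, rfl⟩ := hS
    unfold trans at hM
    rw [Finset.mem_biUnion] at hM
    obtain ⟨u, -, hu⟩ := hM
    rw [Finset.mem_image] at hu
    obtain ⟨Q, hQ, rfl⟩ := hu
    rw [Finset.mem_powersetCard] at hQ
    obtain ⟨v, w, hvw, rfl⟩ := Finset.card_eq_two.mp hQ.2
    have hv : TT L a u v := by
      have := hQ.1 (Finset.mem_insert_self v _)
      exact (Finset.mem_filter.mp this).2
    have hw : TT L a u w := by
      have := hQ.1 (Finset.mem_insert_of_mem (Finset.mem_singleton_self w))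
      exact (Finset.mem_filter.mp this).2
    have hirr := (isTour_TT L a).1 u
    have huv : u ≠ v := fun h => hirr (by rw [← h] at hv; exact hv)
    have huw : u ≠ w := fun h => hirr (by rw [← h] at hw; exact hw)
    have hcard : (insert u ({v, w} : Finset (Fin (r + 4)))).card = 3 := by
      rw [Finset.card_insert_of_notMem, Finset.card_pair hvw]
      simp [huv, huw]
    have hnc := not_cov_of_source hodd hv hw
    unfold Cov at hnc
    push Not at hnc
    obtain ⟨i, hiL, hui, hvi, hwi⟩ := hnc
    rw [Finset.mem_filter, Finset.mem_powersetCard_univ, Finset.card_compl, Fintype.card_fin,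
      hcard]
    refine ⟨by omega, hup (a i) _ (fun x hx => ?_) (hodd.2.1 i hiL)⟩
    rw [Finset.mem_compl, Finset.mem_insert, Finset.mem_insert, Finset.mem_singleton]
    rintro (h | h | h)
    · rw [h] at hx; exact hui hx
    · rw [h] at hx; exact hvi hx
    · rw [h] at hx; exact hwi hx
  exact le_trans h1 (le_trans h2 h3)

/-- The comparison of the face numbers. -/
theorem faces_le' {r n : ℕ} (K : Finset (Finset (Fin n)))
    (hK : ∀ σ ∈ K, ∀ τ : Finset (Fin n), τ ⊆ σ → τ.Nonempty → τ ∈ K)
    (hf : ∃ f : (Fin n → ℝ) → EuclideanSpace ℝ (Fin r),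
      ContinuousOn f (Rz K) ∧ Alm K f)
    (k : ℕ) (hk : n ≤ r + 3 ∨ (n = r + 4 ∧ k = r)) :
    {σ : Finset (Fin n) | σ ∈ K ∧ σ.card = k + 1}.ncard ≤
      {S : Finset (Fin n) | S.card = k + 1 ∧ IsF r S}.ncard := by
  classical
  obtain ⟨f, hf, hi⟩ := hf
  have e1 : {σ : Finset (Fin n) | σ ∈ K ∧ σ.card = k + 1} =
      ↑(((Finset.univ : Finset (Fin n)).powersetCard (k + 1)).filter (fun S => ¬ NF K S)) := by
    ext S
    simp only [Set.mem_ofPred_eq, Finset.coe_filter, Finset.mem_powersetCard_univ]
    constructor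
    · rintro ⟨h1, h2⟩
      exact ⟨h2, fun h => h.2 h1⟩
    · rintro ⟨h1, h2⟩
      refine ⟨?_, h1⟩
      by_contra h3
      exact h2 ⟨Finset.card_pos.mp (by omega), h3⟩
  have e2 : {S : Finset (Fin n) | S.card = k + 1 ∧ IsF r S} =
      ↑(((Finset.univ : Finset (Fin n)).powersetCard (k + 1)).filter (fun S => ¬ ¬ IsF r S)) := by
    ext S
    simp only [Set.mem_ofPred_eq, Finset.coe_filter, Finset.mem_powersetCard_univ, not_not]
  rw [e1, e2, Set.ncard_coe_finset, Set.ncard_coe_finset]
  have h1 := Finset.card_filter_add_card_filter_not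
    (s := (Finset.univ : Finset (Fin n)).powersetCard (k + 1)) (NF K)
  have h2 := Finset.card_filter_add_card_filter_not
    (s := (Finset.univ : Finset (Fin n)).powersetCard (k + 1)) (fun S => ¬ IsF r S)
  have hF : ∀ S ∈ ((Finset.univ : Finset (Fin n)).powersetCard (k + 1)).filter
      (fun S => ¬ IsF r S), S.card = k + 1 ∧ ¬ IsF r S := fun S hS => by
    rw [Finset.mem_filter, Finset.mem_powersetCard_univ] at hS
    exact hS
  have h3 : (((Finset.univ : Finset (Fin n)).powersetCard (k + 1)).filter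
      (fun S => ¬ IsF r S)).card ≤
      (((Finset.univ : Finset (Fin n)).powersetCard (k + 1)).filter (NF K)).card := by
    rcases hk with hk | ⟨rfl, rfl⟩
    · exact missing_le_all hk K hK f hf hi k _ hF
    · exact missing_le_top K hK f hf hi _ hF
  omega

end Pool.Agent.Lib.MP_d9740f_co
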